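import Mathlib
import Pool.Agent.Helper18.Peb.Conc

set_option autoImplicit false

/-!
PB-2: the arithmetic of the lower bound (helper79). See the stub `Helper18/Peb/St/PB2.lean`.
-/

namespace Pool.Agent.Helper79.PB

open Pool.Agent.Helper18.Peb

theorem card_cross (x : ℕ) (i j : Fin 1024) :
    ∑ σ : Star 1024 x, (if σ.1 = i ∨ σ.2.1 = j then 1 else 0) = 2047 * x := by
  have h1 : ∑ σ : Star 1024 x, (if σ.1 = i then 1 else 0) = 1024 * x := by
    rw [Fintype.sum_prod_type]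
    have : ∀ a : Fin 1024, ∑ y : Fin 1024 × Fin x, (if a = i then 1 else 0) =
        if a = i then 1024 * x else 0 := by
      intro a
      rw [Finset.sum_const, Finset.card_univ, Fintype.card_prod, Fintype.card_fin,
        Fintype.card_fin, smul_eq_mul]
      split_ifs <;> simp
    simp only [this]
    rw [Finset.sum_ite_eq' Finset.univ i (fun _ => 1024 * x)]
    simp
  have h2 : ∑ σ : Star 1024 x, (if σ.2.1 = j then 1 else 0) = 1024 * x := by
    rw [Fintype.sum_prod_type]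
    have : ∀ a : Fin 1024, ∑ y : Fin 1024 × Fin x, (if y.1 = j then 1 else 0) = x := by
      intro a
      rw [Fintype.sum_prod_type]
      have h3 : ∀ b : Fin 1024, ∑ c : Fin x, (if b = j then 1 else 0) = if b = j then x else 0 := by
        intro b
        rw [Finset.sum_const, Finset.card_univ, Fintype.card_fin, smul_eq_mul]
        split_ifs <;> simp
      simp only [h3]
      rw [Finset.sum_ite_eq' Finset.univ j (fun _ => x)]
      simp
    refine (Finset.sum_congr rfl (fun a _ => this a)).trans ?_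
    rw [Finset.sum_const, Finset.card_univ, Fintype.card_fin, smul_eq_mul]
  have h3 : ∑ σ : Star 1024 x, (if σ.1 = i ∧ σ.2.1 = j then 1 else 0) = x := by
    rw [Fintype.sum_prod_type]
    have : ∀ a : Fin 1024, ∑ y : Fin 1024 × Fin x, (if a = i ∧ y.1 = j then 1 else 0) =
        if a = i then x else 0 := by
      intro a
      rw [Fintype.sum_prod_type]
      by_cases ha : a = i
      · simp only [ha, true_and, if_true]
        have h3 : ∀ b : Fin 1024, ∑ c : Fin x, (if b = j then 1 else 0) =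
            if b = j then x else 0 := by
          intro b
          rw [Finset.sum_const, Finset.card_univ, Fintype.card_fin, smul_eq_mul]
          split_ifs <;> simp
        simp only [h3]
        rw [Finset.sum_ite_eq' Finset.univ j (fun _ => x)]
        simp
      · simp [ha]
    simp only [this]
    rw [Finset.sum_ite_eq' Finset.univ i (fun _ => x)]
    simp
  have h4 : ∑ σ : Star 1024 x, (if σ.1 = i ∨ σ.2.1 = j then 1 else 0) +
      ∑ σ : Star 1024 x, (if σ.1 = i ∧ σ.2.1 = j then 1 else 0) =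
      ∑ σ : Star 1024 x, (if σ.1 = i then 1 else 0) +
      ∑ σ : Star 1024 x, (if σ.2.1 = j then 1 else 0) := by
    rw [← Finset.sum_add_distrib, ← Finset.sum_add_distrib]
    refine Finset.sum_congr rfl fun σ _ => ?_
    by_cases ha : σ.1 = i <;> by_cases hb : σ.2.1 = j <;> simp [ha, hb]
  rw [h1, h2, h3] at h4
  omega

theorem claim1_arith (x : ℕ) (hx : x = 2 ^ 94 + 2 ^ 82)
    (U RU V RV : Fin 1024 → ℕ) (F1 F2 : ℕ) (tz ty : Star 1024 x → ℕ)
    (og kg oc kc : Star 1024 x → Fin 1024 → ℕ)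
    (hu : 1 + 2 ^ 10 * F1 + ∑ i, 2 ^ 104 * RU i ≤ F2 + ∑ i, U i)
    (hv : 1 + 2 ^ 10 * F2 + ∑ j, 2 ^ 104 * RV j ≤ F1 + ∑ j, V j)
    (hg : ∀ i, 2 ^ 104 * U i + ∑ σ : Star 1024 x, 2 ^ (if σ.1 = i then 34 else 35) * kg σ i
      ≤ RU i + ∑ σ, og σ i)
    (hc : ∀ j, 2 ^ 104 * V j + ∑ σ : Star 1024 x, 2 ^ (if σ.2.1 = j then 34 else 35) * kc σ j
      ≤ RV j + ∑ σ, oc σ j)
    (hz : ∀ σ : Star 1024 x, 2 ^ 60 * ty σ + ∑ i, 2 ^ (if σ.1 = i then 34 else 35) * og σ i
      + ∑ j, 2 ^ (if σ.2.1 = j then 34 else 35) * oc σ j ≤ tz σ + ∑ i, kg σ i + ∑ j, kc σ j)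
    (hy : ∀ σ, 2 ^ 60 * tz σ ≤ 2 ^ 95 - 1 + ty σ)
    (ht : ∀ σ, tz σ = 0 ∨ ty σ = 0) : False := by
  -- prices
  have hp : ∀ (P : Prop) [Decidable P] (n : ℕ), 2 ^ 34 * n ≤ 2 ^ (if P then 34 else 35) * n := by
    intro P _ n
    refine Nat.mul_le_mul_right _ ?_
    split_ifs <;> norm_num
  have htz : ∀ σ, tz σ ≤ 2 ^ 35 - 1 := by
    intro σ
    have h1 := hy σ
    rcases ht σ with h | h
    · rw [h]; norm_num
    · rw [h] at h1; omega
  -- the stars
  have hz1 : ∀ σ : Star 1024 x, ∑ i, 2 ^ (if σ.1 = i then 34 else 35) * og σ i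
      + ∑ j, 2 ^ (if σ.2.1 = j then 34 else 35) * oc σ j ≤
      2 ^ 35 - 1 + (∑ i, kg σ i + ∑ j, kc σ j) := by
    intro σ
    have h1 := hz σ
    have h2 := htz σ
    omega
  have hO : ∀ σ : Star 1024 x, ∑ i, og σ i + ∑ j, oc σ j ≤ 1 + (∑ i, kg σ i + ∑ j, kc σ j) := by
    intro σ
    have h1 := hz1 σ
    have h2 : 2 ^ 34 * ∑ i, og σ i ≤ ∑ i, 2 ^ (if σ.1 = i then 34 else 35) * og σ i := by
      rw [Finset.mul_sum]
      exact Finset.sum_le_sum fun i _ => hp _ _
    have h3 : 2 ^ 34 * ∑ j, oc σ j ≤ ∑ j, 2 ^ (if σ.2.1 = j then 34 else 35) * oc σ j := by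
      rw [Finset.mul_sum]
      exact Finset.sum_le_sum fun i _ => hp _ _
    omega
  -- totals
  set K : ℕ := ∑ σ : Star 1024 x, (∑ i, kg σ i + ∑ j, kc σ j) with hK
  have hcard : Fintype.card (Star 1024 x) = 2 ^ 20 * x := by
    rw [Fintype.card_prod, Fintype.card_prod, Fintype.card_fin, Fintype.card_fin]
    ring
  have hOK : ∑ σ : Star 1024 x, (∑ i, og σ i + ∑ j, oc σ j) ≤ 2 ^ 20 * x + K := by
    calc ∑ σ : Star 1024 x, (∑ i, og σ i + ∑ j, oc σ j)
        ≤ ∑ σ : Star 1024 x, (1 + (∑ i, kg σ i + ∑ j, kc σ j)) :=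
          Finset.sum_le_sum fun σ _ => hO σ
      _ = 2 ^ 20 * x + K := by
          rw [Finset.sum_add_distrib, Finset.sum_const, Finset.card_univ, hcard, smul_eq_mul,
            mul_one]
  have hgs : 2 ^ 104 * ∑ i, U i + 2 ^ 34 * ∑ σ : Star 1024 x, ∑ i, kg σ i ≤
      ∑ i, RU i + ∑ σ : Star 1024 x, ∑ i, og σ i := by
    have h1 := Finset.sum_le_sum fun i (_ : i ∈ Finset.univ) => hg i
    rw [Finset.sum_add_distrib, Finset.sum_add_distrib, ← Finset.mul_sum] at h1
    have h2 : 2 ^ 34 * ∑ σ : Star 1024 x, ∑ i, kg σ i ≤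
        ∑ i, ∑ σ : Star 1024 x, 2 ^ (if σ.1 = i then 34 else 35) * kg σ i := by
      rw [Finset.sum_comm, Finset.mul_sum]
      refine Finset.sum_le_sum fun i _ => ?_
      rw [Finset.mul_sum]
      exact Finset.sum_le_sum fun σ _ => hp _ _
    have h3 : ∑ i, ∑ σ : Star 1024 x, og σ i = ∑ σ : Star 1024 x, ∑ i, og σ i :=
      Finset.sum_comm
    omega
  have hcs : 2 ^ 104 * ∑ j, V j + 2 ^ 34 * ∑ σ : Star 1024 x, ∑ j, kc σ j ≤
      ∑ j, RV j + ∑ σ : Star 1024 x, ∑ j, oc σ j := by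
    have h1 := Finset.sum_le_sum fun i (_ : i ∈ Finset.univ) => hc i
    rw [Finset.sum_add_distrib, Finset.sum_add_distrib, ← Finset.mul_sum] at h1
    have h2 : 2 ^ 34 * ∑ σ : Star 1024 x, ∑ j, kc σ j ≤
        ∑ j, ∑ σ : Star 1024 x, 2 ^ (if σ.2.1 = j then 34 else 35) * kc σ j := by
      rw [Finset.sum_comm, Finset.mul_sum]
      refine Finset.sum_le_sum fun i _ => ?_
      rw [Finset.mul_sum]
      exact Finset.sum_le_sum fun σ _ => hp _ _
    have h3 : ∑ j, ∑ σ : Star 1024 x, oc σ j = ∑ σ : Star 1024 x, ∑ j, oc σ j :=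
      Finset.sum_comm
    omega
  have hO2 : ∑ σ : Star 1024 x, (∑ i, og σ i + ∑ j, oc σ j) =
      ∑ σ : Star 1024 x, ∑ i, og σ i + ∑ σ : Star 1024 x, ∑ j, oc σ j :=
    Finset.sum_add_distrib
  have hK2 : K = ∑ σ : Star 1024 x, ∑ i, kg σ i + ∑ σ : Star 1024 x, ∑ j, kc σ j :=
    Finset.sum_add_distrib
  rw [← Finset.mul_sum] at hu hv
  have hR : ∑ i, RU i = 0 ∧ ∑ j, RV j = 0 ∧ F1 = 0 ∧ F2 = 0 := by
    omega
  obtain ⟨hR1, hR2, hF1, hF2⟩ := hR
  have hKb : 2 ^ 105 + (2 ^ 34 - 1) * K ≤ 2 ^ 20 * x := by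
    omega
  have hU1 : 1 ≤ ∑ i, U i := by omega
  have hV1 : 1 ≤ ∑ j, V j := by omega
  obtain ⟨i, hi⟩ : ∃ i, 1 ≤ U i := by
    by_contra hcon
    push Not at hcon
    have : ∑ i, U i = 0 := Finset.sum_eq_zero fun i _ => by have := hcon i; omega
    omega
  obtain ⟨j, hj⟩ : ∃ j, 1 ≤ V j := by
    by_contra hcon
    push Not at hcon
    have : ∑ i, V i = 0 := Finset.sum_eq_zero fun i _ => by have := hcon i; omega
    omega
  have hRU : RU i = 0 := by
    have := Finset.single_le_sum (f := RU) (fun i _ => Nat.zero_le _) (Finset.mem_univ i)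
    omega
  have hRV : RV j = 0 := by
    have := Finset.single_le_sum (f := RV) (fun i _ => Nat.zero_le _) (Finset.mem_univ j)
    omega
  have hgi : 2 ^ 104 ≤ ∑ σ : Star 1024 x, og σ i := by
    have := hg i
    omega
  have hcj : 2 ^ 104 ≤ ∑ σ : Star 1024 x, oc σ j := by
    have := hc j
    omega
  have hstar : ∀ σ : Star 1024 x, og σ i + oc σ j ≤
      (if σ.1 = i ∨ σ.2.1 = j then 1 else 0) + (∑ i, kg σ i + ∑ j, kc σ j) := by
    intro σ
    by_cases hσ : σ.1 = i ∨ σ.2.1 = j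
    · rw [if_pos hσ]
      have h1 := hO σ
      have h2 : og σ i ≤ ∑ i, og σ i :=
        Finset.single_le_sum (f := og σ) (fun i _ => Nat.zero_le _) (Finset.mem_univ i)
      have h3 : oc σ j ≤ ∑ j, oc σ j :=
        Finset.single_le_sum (f := oc σ) (fun i _ => Nat.zero_le _) (Finset.mem_univ j)
      omega
    · rw [if_neg hσ]
      push Not at hσ
      have h1 := hz1 σ
      have h2 : 2 ^ 35 * og σ i ≤ ∑ i, 2 ^ (if σ.1 = i then 34 else 35) * og σ i := by
        have := Finset.single_le_sum (f := fun i => 2 ^ (if σ.1 = i then 34 else 35) * og σ i)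
          (fun i _ => Nat.zero_le _) (Finset.mem_univ i)
        simp only [if_neg hσ.1] at this
        exact this
      have h3 : 2 ^ 35 * oc σ j ≤ ∑ j, 2 ^ (if σ.2.1 = j then 34 else 35) * oc σ j := by
        have := Finset.single_le_sum (f := fun j => 2 ^ (if σ.2.1 = j then 34 else 35) * oc σ j)
          (fun i _ => Nat.zero_le _) (Finset.mem_univ j)
        simp only [if_neg hσ.2] at this
        exact this
      omega
  have hsum := Finset.sum_le_sum fun σ (_ : σ ∈ (Finset.univ : Finset (Star 1024 x))) => hstar σ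
  rw [Finset.sum_add_distrib, Finset.sum_add_distrib, card_cross, ← hK] at hsum
  omega

end Pool.Agent.Helper79.PB
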