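import Pool.Agent.Helper79.GQ.LH
import Pool.Agent.Helper79.GQ.LC
import Pool.Agent.Helper79.GQ.LA
import Pool.Agent.Helper79.GR.ND

/-!
# PB (MP_13b103_pr, all atomless laws): abstract passage time processes, definitions

`τ ω x y` is a random pseudometric on the lattice with a stationary law, finite means, and the weak
law of large numbers in every direction.  Later `τ ω x y = T (c ω) (x^) (y^)` with the weights `c`
and the point `x^` of the infinite cluster of good edges next to `x`.
-/

set_option autoImplicit false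

namespace Pool.Agent.Helper79.PB

open MeasureTheory ProbabilityTheory Filter Pool.Agent.Helper79.GR Pool.Agent.Helper79.GQ

variable {Ω : Type*} [MeasurableSpace Ω] {d : ℕ}

/-- the mean of a process -/
noncomputable def mn (P : Measure Ω) (τ : Ω → V d → V d → ℝ) (v : V d) : ℝ := ∫ ω, τ ω 0 v ∂P

/-- a stationary passage time process -/
structure Proc (P : Measure Ω) (τ : Ω → V d → V d → ℝ) (a b : ℝ) : Prop where
  prob : IsProbabilityMeasure P
  int : ∀ x y, Integrable (fun ω => τ ω x y) P
  nn : ∀ ω x y, 0 ≤ τ ω x y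
  symm : ∀ ω x y, τ ω x y = τ ω y x
  tri : ∀ ω x y z, τ ω x z ≤ τ ω x y + τ ω y z
  law : ∀ x v, P.map (fun ω => τ ω x (x + v)) = P.map (fun ω => τ ω 0 v)
  sub : SubM a b (mn P τ)
  lln : ∀ (w : F d) (δ p : ℝ), 0 < δ → 0 < p → ∃ r₀ : ℕ, ∀ r ≥ r₀,
    P.real {ω | δ * r < |τ ω 0 (fl r w) - r * tc (mn P τ) w|} ≤ p

section

variable {P : Measure Ω} {τ : Ω → V d → V d → ℝ} {a b : ℝ}

theorem Proc.mean (h : Proc P τ a b) (x y : V d) : ∫ ω, τ ω x y ∂P = mn P τ (y - x) := by
  have h1 := h.law x (y - x)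
  rw [add_sub_cancel] at h1
  have h2 : ∫ t, t ∂(P.map fun ω => τ ω x y) = ∫ t, t ∂(P.map fun ω => τ ω 0 (y - x)) := by
    rw [h1]
  rw [integral_map (h.int x y).aemeasurable (by fun_prop),
    integral_map (h.int 0 (y - x)).aemeasurable (by fun_prop)] at h2
  exact h2

theorem Proc.prob_eq (h : Proc P τ a b) (x v : V d) {S : Set ℝ} (hS : MeasurableSet S) :
    P.real {ω | τ ω x (x + v) ∈ S} = P.real {ω | τ ω 0 v ∈ S} := by
  have h1 : (P.map (fun ω => τ ω x (x + v))).real S = (P.map (fun ω => τ ω 0 v)).real S := by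
    rw [h.law x v]
  rw [map_measureReal_apply_of_aemeasurable (h.int x (x + v)).aemeasurable hS,
    map_measureReal_apply_of_aemeasurable (h.int 0 v).aemeasurable hS] at h1
  exact h1

theorem Proc.mn_neg (h : Proc P τ a b) (v : V d) : mn P τ (-v) = mn P τ v := by
  have h1 := h.mean v 0
  rw [zero_sub] at h1
  rw [← h1]
  unfold mn
  refine integral_congr_ae (Eventually.of_forall fun ω => ?_)
  exact h.symm ω v 0

end

end Pool.Agent.Helper79.PB
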