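import Pool.Agent.Helper79.PB.L1
import Pool.Agent.Helper67.PG.L1

/-!
# PB-Cv: integrable covariant metrics of an i.i.d. field are passage time processes
-/

set_option autoImplicit false

namespace Pool.Agent.Helper79.PB

open MeasureTheory ProbabilityTheory Filter Topology Pool.Agent.Helper79.GR Pool.Agent.Helper79.GQ
open Pool.Agent.Helper67.LL

variable {Ω : Type*} [MeasurableSpace Ω] {d : ℕ} {P : Measure Ω} {X : Edge d → Ω → ℝ}
  {ν : Measure ℝ} {S : (Edge d → ℝ) → V d → V d → ℝ} {a b : ℝ}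

theorem map_eq_of_cov (hi : Iid P X ν) (hc : Cov P X S) (x v : V d) :
    P.map (fun ω => S (cf X ω) x (x + v)) = P.map (fun ω => S (cf X ω) 0 v) := by
  have h1 : (fun ω => S (cf X ω) x (x + v)) =ᵐ[P] fun ω => S (fun e => X (sh x e) ω) 0 v := by
    filter_upwards [hc.cov x 0 v] with ω hω
    rw [hω, zero_add, add_comm v x]
  rw [Measure.map_congr h1]
  have hs : AEMeasurable (fun c => S c 0 v) (P.map (cf X)) := (hc.int v).aemeasurable
  have h2 : P.map (fun ω => S (fun e => X (sh x e) ω) 0 v) =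
      (P.map fun ω e => X (sh x e) ω).map fun c => S c 0 v := by
    rw [AEMeasurable.map_map_of_aemeasurable _ (hi.mp x).measurable.aemeasurable]
    · rfl
    · rw [(hi.mp x).map_eq]
      exact hs
  have h3 : P.map (fun ω => S (cf X ω) 0 v) = (P.map (cf X)).map fun c => S c 0 v := by
    rw [AEMeasurable.map_map_of_aemeasurable hs hi.measurable_cf.aemeasurable]
    rfl
  rw [h2, h3, (hi.mp x).map_eq]

theorem proc_of_cov (hi : Iid P X ν) (hc : Cov P X S) (nn : ∀ ω x y, 0 ≤ S (cf X ω) x y)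
    (symm : ∀ ω x y, S (cf X ω) x y = S (cf X ω) y x)
    (tri : ∀ ω x y z, S (cf X ω) x z ≤ S (cf X ω) x y + S (cf X ω) y z)
    (sub : SubM a b (mS P X S)) : Proc P (fun ω => S (cf X ω)) a b := by
  have h0 : Proc0 P (fun ω => S (cf X ω)) a b :=
    ⟨hi.prob, fun x y => hc.intg hi x y, nn, symm, tri, fun x v => map_eq_of_cov hi hc x v, sub⟩
  refine h0.proc fun v => ?_
  have h1 := law_L1 hc hi v _ (tendsto_nsmul sub v)
  refine h1.congr' ?_
  filter_upwards [eventually_gt_atTop 0] with n hn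
  have hn0 : (0 : ℝ) < n := by exact_mod_cast hn
  rw [← integral_div]
  refine integral_congr_ae (Eventually.of_forall fun ω => ?_)
  show |S (cf X ω) 0 (n • v) / n - tc (mS P X S) (rv v)| =
    |S (cf X ω) 0 (n • v) - n * tc (mn P fun ω => S (cf X ω)) (rv v)| / n
  have e1 : mn P (fun ω => S (cf X ω)) = mS P X S := rfl
  rw [e1]
  have e2 : S (cf X ω) 0 (n • v) / n - tc (mS P X S) (rv v) =
      (S (cf X ω) 0 (n • v) - n * tc (mS P X S) (rv v)) / n := by
    field_simp
  rw [e2, abs_div, abs_of_pos hn0]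

end Pool.Agent.Helper79.PB
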