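import Pool.Agent.Helper79.PB.FinB1
import Pool.Agent.Helper79.PB.Cv
import Pool.Agent.Helper34.GP.Up
import Pool.Agent.Helper56.JT.Pei
import Pool.Agent.Helper51.GP.H3

/-!
# PB-Asm: the law half is assembled from its inputs
-/

set_option autoImplicit false

namespace Pool.Agent.Helper79.PB

open MeasureTheory ProbabilityTheory Filter Topology Pool.Agent.Helper79.GR Pool.Agent.Helper79.GQ
open Pool.Agent.Helper51.NP Pool.Agent.Helper51.GP Pool.Agent.Helper95.LW Pool.Agent.Helper2.PG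
open Pool.Agent.Helper34.GP

private theorem n1_fl_neg' {d : ℕ} (n : ℕ) (x : Fin d → ℝ) : n1 (fl n (-x) - -fl n x) ≤ d := by
  have h1 : ∀ i, |(((fl n (-x) - (-fl n x)) i : ℤ) : ℝ)| ≤ 1 := by
    intro i
    have e : (((fl n (-x) - (-fl n x)) i : ℤ) : ℝ) = ((⌊(n : ℝ) * (-x i)⌋ : ℤ) : ℝ) +
        ((⌊(n : ℝ) * x i⌋ : ℤ) : ℝ) := by
      simp [fl]
    rw [e, abs_le]
    have h2 := Int.floor_le ((n : ℝ) * x i)
    have h3 := Int.lt_floor_add_one ((n : ℝ) * x i)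
    have h4 := Int.floor_le ((n : ℝ) * (-x i))
    have h5 := Int.lt_floor_add_one ((n : ℝ) * (-x i))
    have h6 : (((⌊(n : ℝ) * (-x i)⌋ + ⌊(n : ℝ) * x i⌋ : ℤ)) : ℝ) ≤ 0 := by
      push_cast
      linarith
    have h7 : (-2 : ℝ) < (((⌊(n : ℝ) * (-x i)⌋ + ⌊(n : ℝ) * x i⌋ : ℤ)) : ℝ) := by
      push_cast
      linarith
    have h8 : (-2 : ℤ) < ⌊(n : ℝ) * (-x i)⌋ + ⌊(n : ℝ) * x i⌋ := by exact_mod_cast h7
    have h9 : ((-1 : ℤ) : ℝ) ≤ (((⌊(n : ℝ) * (-x i)⌋ + ⌊(n : ℝ) * x i⌋ : ℤ)) : ℝ) := by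
      exact_mod_cast h8
    push_cast at h6 h9
    constructor <;> linarith
  show ∑ i, |(((fl n (-x) - (-fl n x)) i : ℤ) : ℝ)| ≤ d
  calc ∑ i, |(((fl n (-x) - (-fl n x)) i : ℤ) : ℝ)| ≤ ∑ _i : Fin d, (1 : ℝ) :=
        Finset.sum_le_sum fun i _ => h1 i
    _ = d := by simp

theorem tc_neg_of {d : ℕ} {a b : ℝ} {m : V d → ℝ} (hs : SubM a b m) (hm : ∀ v, m (-v) = m v)
    (x : F d) : tc m (-x) = tc m x := by
  have h1 := ((tendsto_tc hs (-x)).sub (tendsto_tc hs x)).abs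
  have h2 : Filter.Tendsto (fun n : ℕ => |b| * d / (n : ℝ)) Filter.atTop (nhds 0) :=
    tendsto_const_div_atTop_nhds_zero_nat (|b| * d)
  have h3 : |tc m (-x) - tc m x| ≤ 0 := by
    refine le_of_tendsto_of_tendsto h1 h2 (Filter.Eventually.of_forall fun n => ?_)
    show |m (fl n (-x)) / n - m (fl n x) / n| ≤ |b| * d / n
    rw [← sub_div, abs_div, Nat.abs_cast]
    refine div_le_div_of_nonneg_right ?_ (Nat.cast_nonneg n)
    rw [← hm (fl n x)]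
    refine (hs.lip _ _).trans ?_
    calc b * n1 (fl n (-x) - -fl n x) ≤ |b| * n1 (fl n (-x) - -fl n x) :=
          mul_le_mul_of_nonneg_right (le_abs_self b) (n1_nonneg _)
      _ ≤ |b| * d := mul_le_mul_of_nonneg_left (n1_fl_neg' n x) (abs_nonneg b)
  exact sub_eq_zero.1 (abs_eq_zero.1 (le_antisymm h3 (abs_nonneg _)))

theorem Proc.nrm {Ω : Type*} [MeasurableSpace Ω] {d : ℕ} {P : Measure Ω} {a b : ℝ}
    {τ : Ω → V d → V d → ℝ} (h : Proc P τ a b) : Nrm a b (tc (mn P τ)) :=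
  ⟨h.sub.apos, tc_add_le h.sub, tc_smul h.sub, tc_neg_of h.sub h.mn_neg, le_tc h.sub, tc_le h.sub⟩

theorem exists_kap (ν : Measure ℝ) [IsProbabilityMeasure ν] (D : ℝ) :
    ∃ κ : ℝ, 1 ≤ κ ∧ D * ν.real (Set.Ioi κ) < 1 := by
  have h1 : Tendsto (fun n : ℕ => ν (Set.Ioi (n : ℝ))) atTop (𝓝 (ν (⋂ n : ℕ, Set.Ioi (n : ℝ)))) :=
    tendsto_measure_iInter_atTop (fun n => measurableSet_Ioi.nullMeasurableSet)
      (fun m n hmn => Set.Ioi_subset_Ioi (by exact_mod_cast hmn)) ⟨0, measure_ne_top _ _⟩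
  have h2 : (⋂ n : ℕ, Set.Ioi (n : ℝ)) = ∅ := by
    ext x
    simp only [Set.mem_iInter, Set.mem_Ioi, Set.mem_empty_iff_false, iff_false, not_forall, not_lt]
    exact exists_nat_ge x
  rw [h2, measure_empty] at h1
  have h3 : Tendsto (fun n : ℕ => D * ν.real (Set.Ioi (n : ℝ))) atTop (𝓝 (D * 0)) := by
    refine Tendsto.const_mul D ?_
    have := (ENNReal.tendsto_toReal ENNReal.zero_ne_top).comp h1
    simpa [measureReal_def, Function.comp_def] using this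
  rw [mul_zero] at h3
  have h4 := (h3.eventually (gt_mem_nhds one_pos)).and (eventually_ge_atTop 1)
  obtain ⟨n, hn1, hn2⟩ := h4.exists
  exact ⟨n, by exact_mod_cast hn2, hn1⟩

/-- the data of the law half: independent atomless nonnegative weights and a good level `κ` -/
structure Dat {Ω : Type} [MeasurableSpace Ω] {d : ℕ} (P : Measure Ω) (X : Edge d → Ω → ℝ)
    (ν : Measure ℝ) (κ : ℝ) : Prop extends Helper27.PG.EnvA P X ν where
  nn : ∀ e ω, 0 ≤ X e ω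
  k1 : 1 ≤ κ
  kp : (Dl d : ℝ) ^ 2 * ν.real (Set.Ioi κ) < 1

/-- the capped passage times are a stationary passage time process -/
def ProcIn (d : ℕ) : Prop := ∀ (Ω : Type) (mΩ : MeasurableSpace Ω) (P : Measure Ω)
    (X : Edge d → Ω → ℝ) (ν : Measure ℝ) (κ : ℝ), Dat P X ν κ → ∃ a b, Proc P (ts κ X) a b

/-- the two passage times differ by tight errors at the two points -/
def ErrIn (d : ℕ) : Prop := ∀ (Ω : Type) (mΩ : MeasurableSpace Ω) (P : Measure Ω)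
    (X : Edge d → Ω → ℝ) (ν : Measure ℝ) (κ : ℝ), Dat P X ν κ → ∃ err : Ω → V d → ℝ,
      (∀ᵐ ω ∂P, ∀ x y, |T (cf X ω) x y - ts κ X ω x y| ≤ err ω x + err ω y) ∧
      ∀ p : ℝ, 0 < p → ∃ R : ℝ, ∀ x, P.real {ω | R < err ω x} ≤ p

/-- the number of closed edges around a point has a bounded mean -/
def NumIn (d : ℕ) : Prop := ∀ (Ω : Type) (mΩ : MeasurableSpace Ω) (P : Measure Ω)
    (X : Edge d → Ω → ℝ) (ν : Measure ℝ) (κ : ℝ), Dat P X ν κ →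
      ∃ (N : V d → Ω → ℝ) (K₂ : ℝ), (∀ x, Integrable (N x) P) ∧ (∀ x, ∫ ω, N x ω ∂P ≤ K₂) ∧
        ∀ᵐ ω ∂P, ∀ x, (Ct κ (cf X ω) x).Finite ∧ ((Ct κ (cf X ω) x).ncard : ℝ) ≤ N x ω

/-- the truncated passage times are not much smaller than the capped ones -/
def LowIn (d : ℕ) : Prop := ∀ (Ω : Type) (mΩ : MeasurableSpace Ω) (P : Measure Ω)
    (X : Edge d → Ω → ℝ) (ν : Measure ℝ) (κ : ℝ), Dat P X ν κ →
      ∃ m : ℕ, 1 ≤ m ∧ ∃ K : ℝ, ∀ L b : ℕ, 1 ≤ L → L ^ m ≤ b → ∀ x : V d, n1 x ≤ Real.exp L →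
        tc (mn P (ts κ X)) (rv x) ≤ mm P (Yb dl X b) x + K * b

theorem lawA_of {d : ℕ} (hd : 2 ≤ d) (hP : ProcIn d) (hE : ErrIn d) (hN : NumIn d)
    (hL : LowIn d) : LawA d := by
  intro Ω mΩ P X ν h hnn
  have hp := h.prob
  have hν : IsProbabilityMeasure ν := by
    have i : Fin d := ⟨0, by omega⟩
    rw [← h.law (ed 0 (i, true))]
    exact Measure.isProbabilityMeasure_map (h.meas _).aemeasurable
  obtain ⟨κ, hκ1, hκ2⟩ := exists_kap ν ((Dl d : ℝ) ^ 2)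
  have hκ0 : 0 < κ := by linarith
  have hD : Dat P X ν κ := ⟨h, hnn, hκ1, hκ2⟩
  obtain ⟨a, b, hproc⟩ := hP Ω mΩ P X ν κ hD
  obtain ⟨err, hcmp, htight⟩ := hE Ω mΩ P X ν κ hD
  obtain ⟨N, K₂, hNi, hNK, hCt⟩ := hN Ω mΩ P X ν κ hD
  obtain ⟨m, hm1, K, hlow⟩ := hL Ω mΩ P X ν κ hD
  refine ⟨ts κ X, err, a, b, ⟨hproc, Helper56.JT.ae_ok h (by omega), hcmp, htight⟩, ?_⟩
  have hfin : ∀ᵐ ω ∂P, ∀ e, (Clu (fun f => κ < cf X ω f) e).Finite := by
    refine ae_finite h.indep (C := Set.Ioi κ) measurableSet_Ioi (ε := ν.real (Set.Ioi κ))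
      (fun e => ?_) measureReal_nonneg hκ2
    rw [measureReal_def, ← Measure.map_apply (h.meas e) measurableSet_Ioi, h.law e,
      measureReal_def]
  obtain ⟨C, hC, hup⟩ := up_of hp h.meas h.indep h.law h.atom h.nonneg hd hκ0 hfin hNi hNK hCt
    (fun v => hproc.int 0 v) hproc.sub
  obtain ⟨a', K', hF⟩ := fam_of hp h.meas h.indep h.law h.atom h.nonneg (by omega) hC hproc.nrm hm1
    hup ⟨K, hlow⟩
  rintro ⟨G, hle, hcov⟩
  exact core hd hF G hle hcov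

end Pool.Agent.Helper79.PB
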