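import Pool.Agent.Helper79.PB.Dis
import Pool.Agent.Helper79.PG.Gr

/-!
# PB-Cmp: disjoint geodesic rays for proper weights compared with an abstract process

`T (c ω) x y` differs from `τ ω x y` by at most `err ω x + err ω y`, and the errors are tight.
-/

set_option autoImplicit false

namespace Pool.Agent.Helper79.PB

open MeasureTheory ProbabilityTheory Filter Topology Pool.Agent.Helper79.GR Pool.Agent.Helper79.GQ

open Pool.Agent.Helper41.JT (Ok Ok.exists_geo Ok.split Ok.triangle)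

section

variable {Ω : Type*} [MeasurableSpace Ω] {d : ℕ}

/-- proper random weights, the passage times of which are almost those of an abstract process -/
structure Comp (P : Measure Ω) (c : Ω → Edge d → ℝ) (τ : Ω → V d → V d → ℝ)
    (err : Ω → V d → ℝ) (a b : ℝ) : Prop where
  proc : Proc P τ a b
  ok : ∀ᵐ ω ∂P, Ok (c ω)
  cmp : ∀ᵐ ω ∂P, ∀ x y, |T (c ω) x y - τ ω x y| ≤ err ω x + err ω y
  tight : ∀ p : ℝ, 0 < p → ∃ R : ℝ, ∀ x, P.real {ω | R < err ω x} ≤ p

end

variable {Ω : Type*} [MeasurableSpace Ω] {d : ℕ} {P : Measure Ω} {c : Ω → Edge d → ℝ}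
  {τ : Ω → V d → V d → ℝ} {err : Ω → V d → ℝ} {a b : ℝ}

/-- a property which holds with probability at least `1 - p` for all `p > 0` -/
private theorem Cmp_ae [IsProbabilityMeasure P] (S : Set Ω)
    (hS : ∀ p : ℝ, 0 < p → ∃ E : Set Ω, MeasurableSet E ∧ (∀ᵐ ω ∂P, ω ∈ E → ω ∈ S) ∧
      1 - p ≤ P.real E) : ∀ᵐ ω ∂P, ω ∈ S := by
  rw [ae_iff]
  by_contra hne
  have hpos : 0 < P.real {ω | ¬ ω ∈ S} :=
    ENNReal.toReal_pos hne (measure_ne_top P _)
  obtain ⟨E, hE, hES, hp⟩ := hS (P.real {ω | ¬ ω ∈ S} / 2) (half_pos hpos)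
  have h1 : P.real {ω | ¬ ω ∈ S} ≤ P.real Eᶜ := by
    refine ENNReal.toReal_mono (measure_ne_top P _) (measure_mono_ae ?_)
    filter_upwards [hES] with ω h1 h2 h3
    exact h2 (h1 h3)
  rw [probReal_compl_eq_one_sub hE] at h1
  linarith

theorem Comp.disjoint (h : Comp P c τ err a b) {N : ℕ} {w : Fin N → F d}
    {ρ : Fin N → F d →L[ℝ] ℝ} {g : ℝ} (hD : Dir (tc (mn P τ)) w ρ g) :
    ∀ᵐ ω ∂P, ∃ (x : Fin N → V d) (s : Fin N → ℕ → St d),
      (∀ i n, Geo (c ω) (x i) (pre (s i) n)) ∧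
      ∀ i j, i ≠ j → ∀ k l, pos (x i) (pre (s i) k) ≠ pos (x j) (pre (s j) l) := by
  have := h.proc.prob
  refine Cmp_ae {ω | ∃ (x : Fin N → V d) (s : Fin N → ℕ → St d),
      (∀ i n, Geo (c ω) (x i) (pre (s i) n)) ∧
      ∀ i j, i ≠ j → ∀ k l, pos (x i) (pre (s i) k) ≠ pos (x j) (pre (s j) l)} fun p hp => ?_
  have hg := hD.gpos
  have hq : 0 < p / (3 * (N + 1)) := by positivity
  have hw0 : ∀ i, w i ≠ 0 := by
    intro i hi
    have h1 := hD.eq i
    rw [hi, map_zero] at h1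
    exact zero_ne_one h1
  obtain ⟨R, hR⟩ := h.tight _ hq
  choose r₀ hr₀ using fun i => h.proc.increments (hD.der i) (hw0 i) w (g / 4)
    (p / (3 * (N + 1))) (by positivity) hq
  obtain ⟨r₁, hr₁⟩ := exists_nat_ge (16 * |R| / g)
  obtain ⟨r, hr, hr1, hrr₁⟩ : ∃ r : ℕ, (∀ i, r₀ i ≤ r) ∧ 1 ≤ r ∧ r₁ ≤ r := by
    refine ⟨(Finset.univ.sup r₀) + r₁ + 1, fun i => ?_, by omega, by omega⟩
    have := Finset.le_sup (f := r₀) (Finset.mem_univ i)
    omega
  have hRr : 4 * R ≤ g / 4 * r := by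
    have h1 : (r₁ : ℝ) ≤ r := by exact_mod_cast hrr₁
    have h2 := hr₁.trans h1
    rw [div_le_iff₀ hg] at h2
    have h3 := le_abs_self R
    linarith
  choose v hv0 hv using fun i => hr₀ i r (hr i)
  choose k hk hkp using fun (n : ℕ) (i : Fin N) => hv i n
  obtain ⟨E, hE⟩ : ∃ E : ℕ → Set Ω, E = fun n => {ω | ∀ l, (∀ i j,
      τ ω (fl r (w i)) (k n l • v l) - τ ω (fl r (w j)) (k n l • v l) ≤
        r * ρ l (w j - w i) + g / 4 * r) ∧ err ω (k n l • v l) ≤ R ∧ err ω (fl r (w l)) ≤ R} :=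
    ⟨_, rfl⟩
  have hEq : ∀ n, P.real (E n)ᶜ ≤ p := by
    intro n
    have hsub : (E n)ᶜ ⊆ ⋃ l ∈ (Finset.univ : Finset (Fin N)), ({ω | ¬ ∀ i j,
        τ ω (fl r (w i)) (k n l • v l) - τ ω (fl r (w j)) (k n l • v l) ≤
          r * ρ l (w j - w i) + g / 4 * r} ∪ ({ω | R < err ω (k n l • v l)} ∪
            {ω | R < err ω (fl r (w l))})) := by
      intro ω hω
      rw [hE] at hω
      by_contra hn
      apply hω
      intro l
      have h1 : ω ∉ {ω | ¬ ∀ i j,
          τ ω (fl r (w i)) (k n l • v l) - τ ω (fl r (w j)) (k n l • v l) ≤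
            r * ρ l (w j - w i) + g / 4 * r} ∪ ({ω | R < err ω (k n l • v l)} ∪
              {ω | R < err ω (fl r (w l))}) := fun h1 =>
        hn (Set.mem_iUnion₂.2 ⟨l, Finset.mem_univ l, h1⟩)
      rw [Set.mem_union, Set.mem_union, not_or, not_or] at h1
      exact ⟨not_not.1 h1.1, not_lt.1 h1.2.1, not_lt.1 h1.2.2⟩
    have h1 : P.real (E n)ᶜ ≤ N * (3 * (p / (3 * (N + 1)))) := by
      refine (measureReal_mono hsub (measure_ne_top _ _)).trans ?_
      refine (measureReal_biUnion_finset_le _ _).trans ?_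
      refine (Finset.sum_le_sum (g := fun _ => 3 * (p / (3 * (N + 1)))) fun l _ => ?_).trans ?_
      · refine (measureReal_union_le _ _).trans ?_
        have h2 := hkp n l
        have h3 := measureReal_union_le (μ := P) {ω | R < err ω (k n l • v l)}
          {ω | R < err ω (fl r (w l))}
        have h4 := hR (k n l • v l)
        have h5 := hR (fl r (w l))
        linarith
      · rw [Finset.sum_const, nsmul_eq_mul, Finset.card_univ, Fintype.card_fin]
    have h2 : (N : ℝ) * (3 * (p / (3 * (N + 1)))) ≤ p := by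
      have h3 : (3 : ℝ) * (p / (3 * (N + 1))) = p / (N + 1) := by
        field_simp
      rw [h3, mul_div_assoc', div_le_iff₀ (by positivity)]
      nlinarith
    linarith
  obtain ⟨E', hE'⟩ : ∃ E' : ℕ → Set Ω, E' = fun n => (toMeasurable P (E n)ᶜ)ᶜ := ⟨_, rfl⟩
  have hEE : ∀ n, E' n ⊆ E n := by
    intro n ω hω
    rw [hE'] at hω
    by_contra hn
    exact hω (subset_toMeasurable P _ hn)
  have hEm : ∀ n, MeasurableSet (E' n) := by
    intro n
    rw [hE']
    exact (measurableSet_toMeasurable _ _).compl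
  have hEp : ∀ n, 1 - p ≤ P.real (E' n) := by
    intro n
    rw [hE', probReal_compl_eq_one_sub (measurableSet_toMeasurable _ _)]
    have h1 : P.real (toMeasurable P (E n)ᶜ) = P.real (E n)ᶜ := by
      rw [measureReal_def, measureReal_def, measure_toMeasurable]
    have := hEq n
    linarith
  obtain ⟨hm1, hm2⟩ := prob_io P E' hEm (1 - p) hEp
  refine ⟨_, hm1, ?_, hm2⟩
  filter_upwards [h.ok, h.cmp] with ω hok hcmp hω
  refine ⟨fun i => fl r (w i), disj_rays (c ω) _ fun n => ?_⟩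
  obtain ⟨K, hK⟩ := exists_nat_ge (∑ i, n1 (fl r (w i)))
  have hK' : ∀ i, n1 (fl r (w i)) ≤ K := fun i =>
    (Finset.single_le_sum (f := fun i => n1 (fl r (w i)))
      (fun j _ => n1_nonneg _) (Finset.mem_univ i)).trans hK
  obtain ⟨n', hn', hEω⟩ := hω (n + K)
  replace hEω := hEE n' hEω
  rw [hE] at hEω
  choose u hu hgeo using fun i => hok.exists_geo (fl r (w i)) (k n' i • v i)
  refine ⟨u, fun i => ⟨?_, hgeo i⟩, fun i j hij k' l' => ?_⟩
  · have h1 := n1_pos_sub_le (fl r (w i)) (u i)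
    rw [hu i] at h1
    have h2 := n1_add_le (k n' i • v i - fl r (w i)) (fl r (w i))
    rw [sub_add_cancel, n1_nsmul] at h2
    have h3 : 1 ≤ n1 (v i) := by
      obtain ⟨j, hj⟩ := exists_nat_n1 (v i)
      have h0 : n1 (v i) ≠ 0 := fun h => hv0 i (n1_eq_zero.1 h)
      rw [hj] at h0 ⊢
      have : j ≠ 0 := by
        intro h
        apply h0
        rw [h]
        simp
      exact_mod_cast Nat.one_le_iff_ne_zero.2 this
    have h4 : (n : ℝ) + K ≤ k n' i := by
      have := hk n' i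
      exact_mod_cast (by omega : n + K ≤ k n' i)
    have h5 : (k n' i : ℝ) ≤ k n' i * n1 (v i) :=
      le_mul_of_one_le_right (Nat.cast_nonneg _) h3
    have h6 := hK' i
    have h7 : (n : ℝ) ≤ (u i).length := by linarith
    exact_mod_cast h7
  · refine disj_det hok hD r hr1 (fun i => fl r (w i)) (fun i => k n' i • v i)
      (fun l i j => ?_) i j hij (u i) (u j) (hgeo i) (hu i) (hgeo j) (hu j) k' l'
    have h1 := (hEω l).1 i j
    have h2 := (abs_le.1 (hcmp (fl r (w i)) (k n' l • v l))).2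
    have h3 := (abs_le.1 (hcmp (fl r (w j)) (k n' l • v l))).1
    have h4 := (hEω l).2.1
    have h5 := (hEω i).2.2
    have h6 := (hEω j).2.2
    show T (c ω) (fl r (w i)) (k n' l • v l) - T (c ω) (fl r (w j)) (k n' l • v l) ≤
      r * ρ l (w j - w i) + g / 2 * r
    linarith

theorem Comp.disjoint_of_not_poly (h : Comp P c τ err a b) (hd : 0 < d)
    (hnp : ¬ Helper79.PH.Poly (tc (mn P τ))) (N : ℕ) :
    ∀ᵐ ω ∂P, ∃ (x : Fin N → V d) (s : Fin N → ℕ → St d),
      (∀ i n, Geo (c ω) (x i) (pre (s i) n)) ∧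
      ∀ i j, i ≠ j → ∀ k l, pos (x i) (pre (s i) k) ≠ pos (x j) (pre (s j) l) := by
  have hg := Helper78.PG.gau_tc h.proc.sub
  obtain ⟨w, ρ, g, hD⟩ :=
    Helper79.PH.dir_of_infinite hg hd (Helper79.PH.grads_infinite hg hnp) N
  exact h.disjoint hD

end Pool.Agent.Helper79.PB
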