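import Pool.Agent.Helper79.PB.Inc
import Pool.Agent.Helper79.GQ.AD
import Pool.Agent.Helper41.JT.Bas

/-!
# PB-Dis: `N` pairwise disjoint geodesic rays for proper weights

`τ ω x y = T (c ω) (hat ω x) (hat ω y)` with proper weights `c ω` and a random point `hat ω x` near
`x`.  Geodesics from `hat (r w i)` to far points in directions with different gradients are
disjoint; König's lemma.
-/

set_option autoImplicit false

namespace Pool.Agent.Helper79.PB

open MeasureTheory ProbabilityTheory Filter Topology Pool.Agent.Helper79.GR Pool.Agent.Helper79.GQ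

open Pool.Agent.Helper41.JT (Ok Ok.exists_geo Ok.split Ok.triangle)

section

variable {Ω : Type*} [MeasurableSpace Ω] {d : ℕ}

/-- the passage times between the random points `hat ω x` -/
noncomputable def tt (c : Ω → Edge d → ℝ) (hat : Ω → V d → V d) (ω : Ω) (x y : V d) : ℝ :=
  T (c ω) (hat ω x) (hat ω y)

/-- proper random weights and a random point near every lattice point -/
structure Hats (P : Measure Ω) (c : Ω → Edge d → ℝ) (hat : Ω → V d → V d) (a b : ℝ) : Prop where
  proc : Proc P (tt c hat) a b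
  cm : ∀ e, Measurable fun ω => c ω e
  hm : ∀ z, Measurable fun ω => hat ω z
  ok : ∀ᵐ ω ∂P, Ok (c ω)
  far : ∀ R p : ℝ, 0 < p → ∃ R' : ℝ, ∀ z : V d, R' ≤ n1 z → P.real {ω | n1 (hat ω z) ≤ R} ≤ p

end

variable {Ω : Type*} [MeasurableSpace Ω] {d : ℕ} {P : Measure Ω} {c : Ω → Edge d → ℝ}
  {hat : Ω → V d → V d} {a b : ℝ}

theorem Hats.meas (h : Hats P c hat a b) (x y : V d) : Measurable fun ω => tt c hat ω x y := by
  have hc : Measurable fun ω => c ω := measurable_pi_iff.2 h.cm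
  have h1 : Measurable fun q : (V d × V d) × Ω => T (c q.2) q.1.1 q.1.2 := by
    refine measurable_from_prod_countable_right fun p => ?_
    exact (measurable_T_cfg p.1 p.2).comp hc
  exact h1.comp (((h.hm x).prodMk (h.hm y)).prodMk measurable_id)

theorem Hats.meas_n1 (h : Hats P c hat a b) (z : V d) : Measurable fun ω => n1 (hat ω z) :=
  (measurable_of_countable fun x : V d => n1 x).comp (h.hm z)

/-- the deterministic part: the geodesics are disjoint -/
theorem disj_det {N : ℕ} {c : Edge d → ℝ} (hc : Ok c) {w : Fin N → F d}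
    {ρ : Fin N → F d →L[ℝ] ℝ} {u : F d → ℝ} {g : ℝ} (hD : Dir u w ρ g) (r : ℕ) (hr : 1 ≤ r)
    (x z : Fin N → V d)
    (hH : ∀ l i j, T c (x i) (z l) - T c (x j) (z l) ≤ r * ρ l (w j - w i) + g / 2 * r)
    (i j : Fin N) (hij : i ≠ j) (s s' : List (St d)) (hs : Geo c (x i) s) (hsz : pos (x i) s = z i)
    (hs' : Geo c (x j) s') (hsz' : pos (x j) s' = z j) (k l : ℕ) :
    pos (x i) (s.take k) ≠ pos (x j) (s'.take l) := by
  intro hq
  have hr0 : (0 : ℝ) < r := by exact_mod_cast hr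
  have s1 := hc.split hs k
  have s2 := hc.split hs' l
  rw [← hq, hsz'] at s2
  rw [hsz] at s1
  have t1 := hc.triangle (x i) (pos (x i) (s.take k)) (z j)
  have t2 := hc.triangle (x j) (pos (x i) (s.take k)) (z i)
  have e1 := hH i i j
  have e2 := hH j j i
  rw [map_sub, hD.eq] at e1 e2
  have r3 := hD.sep i j hij
  have r4 := hD.sep j i hij.symm
  have f1 : (r : ℝ) * (ρ i (w j) - 1) ≤ r * (-g) := mul_le_mul_of_nonneg_left (by linarith) hr0.le
  have f2 : (r : ℝ) * (ρ j (w i) - 1) ≤ r * (-g) := mul_le_mul_of_nonneg_left (by linarith) hr0.le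
  have f3 : 0 < g * r := mul_pos hD.gpos hr0
  nlinarith

/-- a property which holds with probability at least `1 - p` for all `p > 0` -/
private theorem Dis_ae [IsProbabilityMeasure P] (S : Set Ω)
    (hS : ∀ p : ℝ, 0 < p → ∃ E : Set Ω, MeasurableSet E ∧ (∀ᵐ ω ∂P, ω ∈ E → ω ∈ S) ∧
      1 - p ≤ P.real E) : ∀ᵐ ω ∂P, ω ∈ S := by
  rw [ae_iff]
  by_contra hne
  have hpos : 0 < P.real {ω | ¬ ω ∈ S} :=
    ENNReal.toReal_pos hne (measure_ne_top P _)
  obtain ⟨E, hE, hES, hp⟩ := hS (P.real {ω | ¬ ω ∈ S} / 2) (half_pos hpos)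
  have h1 : P.real {ω | ¬ ω ∈ S} ≤ P.real Eᶜ := by
    refine ENNReal.toReal_mono (measure_ne_top P _) (measure_mono_ae ?_)
    filter_upwards [hES] with ω h1 h2 h3
    exact h2 (h1 h3)
  rw [probReal_compl_eq_one_sub hE] at h1
  linarith

theorem Hats.disjoint (h : Hats P c hat a b) {N : ℕ} {w : Fin N → F d}
    {ρ : Fin N → F d →L[ℝ] ℝ} {g : ℝ} (hD : Dir (tc (mn P (tt c hat))) w ρ g) :
    ∀ᵐ ω ∂P, ∃ (x : Fin N → V d) (s : Fin N → ℕ → St d),
      (∀ i n, Geo (c ω) (x i) (pre (s i) n)) ∧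
      ∀ i j, i ≠ j → ∀ k l, pos (x i) (pre (s i) k) ≠ pos (x j) (pre (s j) l) := by
  have := h.proc.prob
  refine Dis_ae {ω | ∃ (x : Fin N → V d) (s : Fin N → ℕ → St d),
      (∀ i n, Geo (c ω) (x i) (pre (s i) n)) ∧
      ∀ i j, i ≠ j → ∀ k l, pos (x i) (pre (s i) k) ≠ pos (x j) (pre (s j) l)} fun p hp => ?_
  have hg := hD.gpos
  have hq : 0 < p / (2 * (N + 1)) := by positivity
  have hw0 : ∀ i, w i ≠ 0 := by
    intro i hi
    have h1 := hD.eq i
    rw [hi, map_zero] at h1
    exact zero_ne_one h1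
  choose r₀ hr₀ using fun i => h.proc.increments (hD.der i) (hw0 i) w (g / 2)
    (p / (2 * (N + 1))) (half_pos hg) hq
  obtain ⟨r, hr, hr1⟩ : ∃ r : ℕ, (∀ i, r₀ i ≤ r) ∧ 1 ≤ r := by
    refine ⟨(Finset.univ.sup r₀) + 1, fun i => ?_, by omega⟩
    have := Finset.le_sup (f := r₀) (Finset.mem_univ i)
    omega
  choose v hv0 hv using fun i => hr₀ i r (hr i)
  choose R' hR' using fun n : ℕ => h.far n (p / (2 * (N + 1))) hq
  choose k hk hkp using fun (n : ℕ) (i : Fin N) => hv i (⌈R' n⌉₊ + n)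
  have hfar : ∀ n i, P.real {ω | n1 (hat ω (k n i • v i)) ≤ n} ≤ p / (2 * (N + 1)) := by
    intro n i
    refine hR' n _ ?_
    have h3 : 1 ≤ n1 (v i) := by
      obtain ⟨j, hj⟩ := exists_nat_n1 (v i)
      have h0 : n1 (v i) ≠ 0 := fun h => hv0 i (n1_eq_zero.1 h)
      rw [hj] at h0 ⊢
      have : j ≠ 0 := by
        intro h
        apply h0
        rw [h]
        simp
      exact_mod_cast Nat.one_le_iff_ne_zero.2 this
    have h4 : R' n ≤ k n i := by
      have h5 := Nat.le_ceil (R' n)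
      have h6 := hk n i
      have h7 : (⌈R' n⌉₊ : ℝ) ≤ k n i := by
        have : ⌈R' n⌉₊ ≤ k n i := by omega
        exact_mod_cast this
      linarith
    rw [n1_nsmul]
    exact h4.trans (le_mul_of_one_le_right (Nat.cast_nonneg _) h3)
  obtain ⟨E, hE⟩ : ∃ E : ℕ → Set Ω, E = fun n => {ω | ∀ l, (∀ i j,
      tt c hat ω (fl r (w i)) (k n l • v l) - tt c hat ω (fl r (w j)) (k n l • v l) ≤
        r * ρ l (w j - w i) + g / 2 * r) ∧ n < n1 (hat ω (k n l • v l))} := ⟨_, rfl⟩
  have hEm : ∀ n, MeasurableSet (E n) := by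
    intro n
    have e1 : E n = ⋂ l, ((⋂ i, ⋂ j, {ω |
        tt c hat ω (fl r (w i)) (k n l • v l) - tt c hat ω (fl r (w j)) (k n l • v l) ≤
          r * ρ l (w j - w i) + g / 2 * r}) ∩ {ω | (n : ℝ) < n1 (hat ω (k n l • v l))}) := by
      rw [hE]
      ext ω
      simp
    rw [e1]
    refine MeasurableSet.iInter fun l => MeasurableSet.inter (MeasurableSet.iInter fun i =>
      MeasurableSet.iInter fun j => ?_) ?_
    · exact measurableSet_le ((h.meas _ _).sub (h.meas _ _)) measurable_const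
    · exact measurableSet_lt measurable_const (h.meas_n1 _)
  have hEp : ∀ n, 1 - p ≤ P.real (E n) := by
    intro n
    have hsub : (E n)ᶜ ⊆ ⋃ l ∈ (Finset.univ : Finset (Fin N)), ({ω | ¬ ∀ i j,
        tt c hat ω (fl r (w i)) (k n l • v l) - tt c hat ω (fl r (w j)) (k n l • v l) ≤
          r * ρ l (w j - w i) + g / 2 * r} ∪ {ω | n1 (hat ω (k n l • v l)) ≤ n}) := by
      intro ω hω
      rw [hE] at hω
      by_contra hn
      apply hω
      intro l
      have h1 : ω ∉ {ω | ¬ ∀ i j,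
          tt c hat ω (fl r (w i)) (k n l • v l) - tt c hat ω (fl r (w j)) (k n l • v l) ≤
            r * ρ l (w j - w i) + g / 2 * r} ∪ {ω | n1 (hat ω (k n l • v l)) ≤ n} := fun h1 =>
        hn (Set.mem_iUnion₂.2 ⟨l, Finset.mem_univ l, h1⟩)
      rw [Set.mem_union, not_or] at h1
      exact ⟨not_not.1 h1.1, not_le.1 h1.2⟩
    have h1 : P.real (E n)ᶜ ≤ N * (2 * (p / (2 * (N + 1)))) := by
      refine (measureReal_mono hsub (measure_ne_top _ _)).trans ?_
      refine (measureReal_biUnion_finset_le _ _).trans ?_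
      refine (Finset.sum_le_sum (g := fun _ => 2 * (p / (2 * (N + 1)))) fun l _ => ?_).trans ?_
      · refine (measureReal_union_le _ _).trans ?_
        have h2 := hkp n l
        have h3 := hfar n l
        linarith
      · rw [Finset.sum_const, nsmul_eq_mul, Finset.card_univ, Fintype.card_fin]
    rw [probReal_compl_eq_one_sub (hEm n)] at h1
    have h2 : (N : ℝ) * (2 * (p / (2 * (N + 1)))) ≤ p := by
      have h3 : (2 : ℝ) * (p / (2 * (N + 1))) = p / (N + 1) := by
        field_simp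
      rw [h3, mul_div_assoc', div_le_iff₀ (by positivity)]
      nlinarith
    linarith
  obtain ⟨hm1, hm2⟩ := prob_io P E hEm (1 - p) hEp
  refine ⟨_, hm1, ?_, hm2⟩
  filter_upwards [h.ok] with ω hok hω
  refine ⟨fun i => hat ω (fl r (w i)), disj_rays (c ω) _ fun n => ?_⟩
  obtain ⟨K, hK⟩ := exists_nat_ge (∑ i, n1 (hat ω (fl r (w i))))
  have hK' : ∀ i, n1 (hat ω (fl r (w i))) ≤ K := fun i =>
    (Finset.single_le_sum (f := fun i => n1 (hat ω (fl r (w i))))
      (fun j _ => n1_nonneg _) (Finset.mem_univ i)).trans hK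
  obtain ⟨n', hn', hEω⟩ := hω (n + K)
  rw [hE] at hEω
  choose u hu hgeo using fun i => hok.exists_geo (hat ω (fl r (w i))) (hat ω (k n' i • v i))
  refine ⟨u, fun i => ⟨?_, hgeo i⟩, fun i j hij k' l' => ?_⟩
  · have h1 := n1_pos_sub_le (hat ω (fl r (w i))) (u i)
    rw [hu i] at h1
    have h2 := n1_add_le (hat ω (k n' i • v i) - hat ω (fl r (w i))) (hat ω (fl r (w i)))
    rw [sub_add_cancel] at h2
    have h3 := (hEω i).2
    have h4 : (n : ℝ) + K ≤ n' := by exact_mod_cast hn'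
    have h6 := hK' i
    have h7 : (n : ℝ) ≤ (u i).length := by linarith
    exact_mod_cast h7
  · exact disj_det hok hD r hr1 (fun i => hat ω (fl r (w i))) (fun i => hat ω (k n' i • v i))
      (fun l i j => (hEω l).1 i j) i j hij (u i) (u j) (hgeo i) (hu i) (hgeo j) (hu j) k' l'

end Pool.Agent.Helper79.PB
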