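import Pool.Agent.Helper79.PB.LN
import Pool.Agent.Helper78.PG.Grad

/-!
# PB-Ex: excess of the means, differentiability, targets
-/

set_option autoImplicit false

namespace Pool.Agent.Helper79.PB

open MeasureTheory ProbabilityTheory Filter Topology Pool.Agent.Helper79.GR Pool.Agent.Helper79.GQ

section

variable {d : ℕ} {a b : ℝ} {m : V d → ℝ}

theorem excess (hS : SubM a b m) (w : F d) (K : ℕ) (δ : ℝ) (hδ : 0 < δ) :
    ∃ R₀ : ℕ, ∀ R ≥ R₀, (K : ℝ) * (m (fl R w) - tc m (rv (fl R w)) + 1) < δ * R := by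
  have h1 : Tendsto (fun n : ℕ => (K : ℝ) * (m (fl n w) / n - tc m w +
      (|b| * d + 1) / n)) atTop (𝓝 ((K : ℝ) * (tc m w - tc m w + 0))) :=
    (((tendsto_tc hS w).sub_const _).add
      (tendsto_const_div_atTop_nhds_zero_nat (|b| * d + 1))).const_mul _
  rw [sub_self, add_zero, mul_zero] at h1
  obtain ⟨R₀, hR₀⟩ := eventually_atTop.1 ((h1.eventually_lt_const hδ).and
    (eventually_gt_atTop 0))
  refine ⟨R₀, fun R hR => ?_⟩
  obtain ⟨h2, h3⟩ := hR₀ R hR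
  have h3' : (0 : ℝ) < R := by exact_mod_cast h3
  have h4 : (R : ℝ) * tc m w - |b| * d ≤ tc m (rv (fl R w)) := by
    have h5 := tc_lip hS (rv (fl R w)) ((R : ℝ) • w)
    rw [tc_smul hS _ h3'.le] at h5
    have h6 : b * nr (rv (fl R w) - (R : ℝ) • w) ≤ |b| * d :=
      (mul_le_mul_of_nonneg_right (le_abs_self b) (nr_nonneg _)).trans
        (mul_le_mul_of_nonneg_left (nr_fl R w) (abs_nonneg b))
    linarith [(abs_le.1 (h5.trans h6)).1]
  have h7 : (K : ℝ) * (m (fl R w) - tc m (rv (fl R w)) + 1) ≤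
      (K : ℝ) * (m (fl R w) - R * tc m w + (|b| * d + 1)) :=
    mul_le_mul_of_nonneg_left (by linarith) (Nat.cast_nonneg K)
  refine h7.trans_lt ?_
  have h8 : (K : ℝ) * (m (fl R w) - R * tc m w + (|b| * d + 1)) =
      (K : ℝ) * (m (fl R w) / R - tc m w + (|b| * d + 1) / R) * R := by
    field_simp
  rw [h8]
  exact mul_lt_mul_of_pos_right h2 h3'

theorem diff_pt (hS : SubM a b m) {w : F d} {ρ : F d →L[ℝ] ℝ} (hw : HasFDerivAt (tc m) ρ w)
    (y : F d) : Tendsto (fun M : ℕ => tc m ((M : ℝ) • w + y) - tc m ((M : ℝ) • w)) atTop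
      (𝓝 (ρ y)) := by
  have h1 := (hasDerivAt_iff_tendsto_slope_zero.1 (Helper78.PG.line_deriv hw y))
  have h2 : Tendsto (fun M : ℕ => ((M : ℝ))⁻¹) atTop (𝓝[≠] 0) := by
    refine tendsto_nhdsWithin_of_tendsto_nhds_of_eventually_within _
      tendsto_inv_atTop_nhds_zero_nat ?_
    filter_upwards [eventually_gt_atTop 0] with M hM
    have : (M : ℝ) ≠ 0 := by exact_mod_cast hM.ne'
    exact inv_ne_zero this
  refine (h1.comp h2).congr' ?_
  filter_upwards [eventually_gt_atTop 0] with M hM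
  have hM0 : (0 : ℝ) < M := by exact_mod_cast hM
  simp only [Function.comp, zero_add, zero_smul, add_zero, inv_inv, smul_eq_mul]
  rw [mul_sub, ← tc_smul hS _ hM0.le, ← tc_smul hS _ hM0.le, smul_add, smul_smul,
    mul_inv_cancel₀ hM0.ne', one_smul]

theorem fl_ne {w : F d} (hw : w ≠ 0) : ∃ r₀ : ℕ, ∀ n ≥ r₀, fl n w ≠ 0 := by
  obtain ⟨i, hi⟩ : ∃ i, w i ≠ 0 := by
    by_contra hn
    push Not at hn
    exact hw (funext hn)
  obtain ⟨r₀, hr₀⟩ := exists_nat_gt ((d : ℝ) / nr w)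
  have hn : 0 < nr w := Helper78.PG.nr_pos hw
  refine ⟨r₀, fun n hnr h0 => ?_⟩
  have h1 := nr_fl n w
  rw [h0, rv_zero, zero_sub, nr_neg, nr_smul, Nat.abs_cast] at h1
  rw [div_lt_iff₀ hn] at hr₀
  have h2 : (r₀ : ℝ) ≤ n := by exact_mod_cast hnr
  nlinarith

end

section

variable {Ω : Type*} [MeasurableSpace Ω] {d : ℕ} {P : Measure Ω} {τ : Ω → V d → V d → ℝ}
  {a b : ℝ}

theorem Proc.targets (h : Proc P τ a b) (v : V d) (k : ℕ) (A : Finset (V d))
    (δ δ' : ℝ) (hδ' : 0 < δ')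
    (hk : ∀ x ∈ A, mn P τ v + mn P τ (k • v - x) - mn P τ ((k + 1) • v - x) ≤ δ) :
    P.real {ω | ∃ x ∈ A, τ ω x ((k + 1) • v) <
      τ ω x (x + v) + τ ω (x + v) ((k + 1) • v) - δ'} ≤ A.card * δ / δ' := by
  have := h.prob
  set z : V d := (k + 1) • v with hz
  have hF0 : ∀ (x : V d) (ω : Ω), 0 ≤ τ ω x (x + v) + τ ω (x + v) z - τ ω x z := fun x ω => by
    have h1 := h.tri ω x (x + v) z
    linarith
  have hFi : ∀ x : V d, Integrable (fun ω => τ ω x (x + v) + τ ω (x + v) z - τ ω x z) P := fun x =>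
    ((h.int _ _).add (h.int _ _)).sub (h.int _ _)
  have hint : ∀ x ∈ A, ∫ ω, (τ ω x (x + v) + τ ω (x + v) z - τ ω x z) ∂P ≤ δ := by
    intro x hx
    have hadd : Integrable (fun ω => τ ω x (x + v) + τ ω (x + v) z) P :=
      (h.int _ _).add (h.int _ _)
    rw [integral_sub hadd (h.int _ _), integral_add (h.int _ _) (h.int _ _), h.mean, h.mean,
      h.mean]
    have h1 : x + v - x = v := by abel
    have h2 : z - (x + v) = k • v - x := by
      rw [hz, succ_nsmul]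
      abel
    rw [h1, h2]
    exact hk x hx
  have hmk : ∀ x ∈ A, P.real {ω | δ' ≤ τ ω x (x + v) + τ ω (x + v) z - τ ω x z} ≤ δ / δ' := by
    intro x hx
    have h1 := mul_meas_ge_le_integral_of_nonneg (μ := P)
      (f := fun ω => τ ω x (x + v) + τ ω (x + v) z - τ ω x z)
      (Filter.Eventually.of_forall fun ω => hF0 x ω) (hFi x) δ'
    rw [le_div_iff₀ hδ', mul_comm]
    exact h1.trans (hint x hx)
  have hsub : {ω | ∃ x ∈ A, τ ω x z < τ ω x (x + v) + τ ω (x + v) z - δ'} ⊆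
      ⋃ x ∈ A, {ω | δ' ≤ τ ω x (x + v) + τ ω (x + v) z - τ ω x z} := by
    rintro ω ⟨x, hx, hlt⟩
    rw [Set.mem_iUnion₂]
    refine ⟨x, hx, ?_⟩
    change δ' ≤ _
    linarith
  calc P.real {ω | ∃ x ∈ A, τ ω x z < τ ω x (x + v) + τ ω (x + v) z - δ'}
      ≤ P.real (⋃ x ∈ A, {ω | δ' ≤ τ ω x (x + v) + τ ω (x + v) z - τ ω x z}) :=
        measureReal_mono hsub (measure_ne_top _ _)
    _ ≤ ∑ x ∈ A, P.real {ω | δ' ≤ τ ω x (x + v) + τ ω (x + v) z - τ ω x z} :=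
        measureReal_biUnion_finset_le _ _
    _ ≤ ∑ _x ∈ A, δ / δ' := Finset.sum_le_sum hmk
    _ = A.card * δ / δ' := by rw [Finset.sum_const, nsmul_eq_mul, mul_div_assoc]

end

end Pool.Agent.Helper79.PB
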