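import Pool.Agent.Helper79.PB.Join
import Pool.Agent.Helper79.PB.Cmp

/-!
# PB-FinB0: the frozen statement S19167 from the three inputs (law half, core, join theorem)
-/

set_option autoImplicit false

namespace Pool.Agent.Helper79.PB

open MeasureTheory ProbabilityTheory Pool.Agent.Helper79.GR Pool.Agent.Helper79.GQ

open Pool.Agent.Helper41.JT (RayF)

/-- the join theorem for all atomless laws -/
def JoinA (d : ℕ) : Prop := ∀ (Ω : Type) (mΩ : MeasurableSpace Ω) (P : Measure Ω)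
    (X : Edge d → Ω → ℝ) (ν : Measure ℝ), Helper27.PG.EnvA P X ν → ∀ᵐ ω ∂P, ∀ x y : V d,
    {g | RayF (cf X ω) y g}.Finite → ∀ g, RayF (cf X ω) x g →
      ∃ g', RayF (cf X ω) y g' ∧ SameTail x y g g'

/-- the law half and the core: a comparison process the time constant of which is not a maximum of
finitely many linear functionals -/
def LawA (d : ℕ) : Prop := ∀ (Ω : Type) (mΩ : MeasurableSpace Ω) (P : Measure Ω)
    (X : Edge d → Ω → ℝ) (ν : Measure ℝ), Helper27.PG.EnvA P X ν → (∀ e ω, 0 ≤ X e ω) →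
    ∃ (τ : Ω → V d → V d → ℝ) (err : Ω → V d → ℝ) (a b : ℝ),
      Comp P (fun ω => cf X ω) τ err a b ∧ ¬ Helper79.PH.Poly (tc (mn P τ))

theorem finB_of {d : ℕ} (hd : 2 ≤ d) (hJ : JoinA d) (hL : LawA d) :
  ∀ (μ : Measure ℝ), IsProbabilityMeasure μ → NoAtoms μ → μ (Set.Iio 0) = 0 →
  ∀ (Ω : Type) (mΩ : MeasurableSpace Ω) (P : Measure Ω), IsProbabilityMeasure P →
  ∀ (t : Sym2 (Fin d → ℤ) → Ω → ℝ),
    (∀ e, Measurable (t e)) →
    iIndepFun
      (fun e : {e : Sym2 (Fin d → ℤ) //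
          ∃ x y : Fin d → ℤ, e = s(x, y) ∧ ∑ i, |x i - y i| = 1} => t e.1)
      P →
    (∀ x y : Fin d → ℤ, ∑ i, |x i - y i| = 1 →
      Measure.map (t s(x, y)) P = μ) →
    ∀ᵐ ω ∂P,
      Set.Infinite {γ : ℕ → (Fin d → ℤ) |
        γ 0 = 0 ∧ Function.Injective γ ∧
        (∀ k, ∑ i, |γ k i - γ (k + 1) i| = 1) ∧
        ∀ m n : ℕ, m ≤ n →
          ∀ (L : ℕ) (q : ℕ → (Fin d → ℤ)), q 0 = γ m → q L = γ n →
            (∀ k < L, ∑ i, |q k i - q (k + 1) i| = 1) →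
            ∑ k ∈ Finset.range (n - m), t s(γ (m + k), γ (m + k + 1)) ω ≤
              ∑ k ∈ Finset.range L, t s(q k, q (k + 1)) ω} := by
  refine words d fun Ω mΩ P X ν h => ?_
  have hA := h.envA (by omega)
  obtain ⟨τ, err, a, b, hC, hnp⟩ := hL Ω mΩ P X ν hA h.nn
  have h1 : ∀ᵐ ω ∂P, ∀ N : ℕ, ∃ (x : Fin N → V d) (s : Fin N → ℕ → St d),
      (∀ i n, Geo (cf X ω) (x i) (pre (s i) n)) ∧
      ∀ i j, i ≠ j → ∀ k l, pos (x i) (pre (s i) k) ≠ pos (x j) (pre (s j) l) :=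
    ae_all_iff.2 fun N => hC.disjoint_of_not_poly (by omega) hnp N
  filter_upwards [h1, hJ Ω mΩ P X ν hA] with ω hω hjω N
  exact rays_of_join (fun hfin x g hg => hjω x 0 hfin g hg) hω N

end Pool.Agent.Helper79.PB
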