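import Pool.Agent.Helper79.PB.Ex

/-!
# PB-Inc: increments of the passage times to far targets, in probability
-/

set_option autoImplicit false

namespace Pool.Agent.Helper79.PB

open MeasureTheory ProbabilityTheory Filter Topology Pool.Agent.Helper79.GR Pool.Agent.Helper79.GQ

variable {Ω : Type*} [MeasurableSpace Ω] {d : ℕ} {P : Measure Ω} {τ : Ω → V d → V d → ℝ}
  {a b : ℝ}

theorem Proc.increments (h : Proc P τ a b) {w : F d} {ρ : F d →L[ℝ] ℝ}
    (hw : HasFDerivAt (tc (mn P τ)) ρ w) (hw0 : w ≠ 0) {N : ℕ} (y : Fin N → F d) (δ p : ℝ)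
    (hδ : 0 < δ) (hp : 0 < p) : ∃ r₀ : ℕ, ∀ r ≥ r₀, ∃ v : V d, v ≠ 0 ∧ ∀ k₀ : ℕ, ∃ k > k₀,
      P.real {ω | ¬ ∀ i j, τ ω (fl r (y i)) (k • v) - τ ω (fl r (y j)) (k • v) ≤
        r * ρ (y j - y i) + δ * r} ≤ p := by
  have := h.prob
  have hδ₁ : 0 < δ / 4 := by positivity
  -- the factor `M`
  obtain ⟨M, hM1, hM⟩ : ∃ M : ℕ, 1 ≤ M ∧ ∀ i j : Fin N,
      tc (mn P τ) ((M : ℝ) • w + (y j - y i)) - tc (mn P τ) ((M : ℝ) • w) ≤
        ρ (y j - y i) + δ / 4 := by
    have h1 : ∀ᶠ M : ℕ in atTop, ∀ i j : Fin N,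
        tc (mn P τ) ((M : ℝ) • w + (y j - y i)) - tc (mn P τ) ((M : ℝ) • w) <
          ρ (y j - y i) + δ / 4 := by
      rw [eventually_all]
      intro i
      rw [eventually_all]
      intro j
      exact (diff_pt h.sub hw (y j - y i)).eventually_lt_const (by linarith)
    obtain ⟨M, hM⟩ := (h1.and (eventually_ge_atTop 1)).exists
    exact ⟨M, hM.2, fun i j => (hM.1 i j).le⟩
  have hM0 : (0 : ℝ) < M := by exact_mod_cast hM1
  -- the small probability
  obtain ⟨p', hp', hKp⟩ : ∃ p' : ℝ, 0 < p' ∧ (N : ℝ) * p' + (N : ℝ) * N * p' ≤ p := by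
    have hK1 : (0 : ℝ) < (N : ℝ) + (N : ℝ) * N + 1 := by positivity
    refine ⟨p / ((N : ℝ) + (N : ℝ) * N + 1), by positivity, ?_⟩
    rw [← add_mul, mul_div_assoc', div_le_iff₀ hK1]
    nlinarith
  -- the law of large numbers
  have hl : ∀ i j : Fin N, ∃ r₀ : ℕ, ∀ r ≥ r₀, ∀ x u : V d,
      nr (rv u - (r : ℝ) • ((M : ℝ) • w + (y j - y i))) ≤ 3 * d →
      P.real {ω | δ / 4 * r < |τ ω x (x + u) - r * tc (mn P τ) ((M : ℝ) • w + (y j - y i))|} ≤
        p' := fun i j => h.lln_near _ (3 * d) (δ / 4) p' hδ₁ hp'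
  choose rr hrr using hl
  obtain ⟨r₃, hr₃⟩ : ∃ r₃ : ℕ, ∀ i j, rr i j ≤ r₃ := by
    refine ⟨∑ i, ∑ j, rr i j, fun i j => ?_⟩
    exact (Finset.single_le_sum (f := fun j => rr i j) (fun _ _ => Nat.zero_le _)
      (Finset.mem_univ j)).trans (Finset.single_le_sum (f := fun i => ∑ j, rr i j)
        (fun _ _ => Nat.zero_le _) (Finset.mem_univ i))
  obtain ⟨r₄, hr₄⟩ := excess h.sub w N (p' * (δ / 4) / M) (by positivity)
  obtain ⟨r₅, hr₅⟩ := fl_ne hw0
  refine ⟨max r₃ (max r₄ (max r₅ 1)), fun r hr => ?_⟩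
  have hrr₃ : r₃ ≤ r := (le_max_left _ _).trans hr
  have hrr₄ : r₄ ≤ r := (le_max_left _ _).trans ((le_max_right _ _).trans hr)
  have hrr₅ : r₅ ≤ r :=
    (le_max_left _ _).trans ((le_max_right _ _).trans ((le_max_right _ _).trans hr))
  have hr1 : 1 ≤ r :=
    (le_max_right _ _).trans ((le_max_right _ _).trans ((le_max_right _ _).trans hr))
  have hr0 : (0 : ℝ) < r := by exact_mod_cast hr1
  have hMr : r ≤ M * r := Nat.le_mul_of_pos_left r hM1
  refine ⟨fl (M * r) w, hr₅ (M * r) (hrr₅.trans hMr), fun k₀ => ?_⟩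
  obtain ⟨v, hv⟩ : ∃ v : V d, v = fl (M * r) w := ⟨_, rfl⟩
  rw [← hv]
  classical
  obtain ⟨A, hA⟩ : ∃ A : Finset (V d), A = Finset.univ.image fun i : Fin N => fl r (y i) :=
    ⟨_, rfl⟩
  have hmemA : ∀ i, fl r (y i) ∈ A := by
    intro i
    rw [hA]
    exact Finset.mem_image_of_mem _ (Finset.mem_univ i)
  have hcard : (A.card : ℝ) ≤ N := by
    have h1 : A.card ≤ N := by
      rw [hA]
      refine Finset.card_image_le.trans ?_
      rw [Finset.card_univ, Fintype.card_fin]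
    exact_mod_cast h1
  have hnn : 0 ≤ mn P τ (1 • v) - (1 : ℕ) * tc (mn P τ) (rv v) + 1 := by
    have := mul_tc_le h.sub v 1
    linarith
  have hex := hr₄ (M * r) (hrr₄.trans hMr)
  rw [← hv] at hex
  have hex' : (N : ℝ) * (mn P τ (1 • v) - (1 : ℕ) * tc (mn P τ) (rv v) + 1) <
      p' * (δ / 4) * r := by
    have e1 : p' * (δ / 4) / M * ((M * r : ℕ) : ℝ) = p' * (δ / 4) * r := by
      push_cast
      field_simp
    rw [e1] at hex
    rw [one_smul, Nat.cast_one, one_mul]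
    exact hex
  obtain ⟨k, hk, hgood⟩ := good_targets h.sub v A 1 (p' * (δ / 4) * r)
    ((mul_le_mul_of_nonneg_right hcard hnn).trans_lt hex') k₀
  simp only [one_smul] at hgood
  refine ⟨k + 1, by omega, ?_⟩
  have E1 := h.targets v k A (p' * (δ / 4) * r) (δ / 4 * r) (mul_pos hδ₁ hr0) hgood
  -- the distances
  have hdist : ∀ i j : Fin N, nr (rv (fl r (y j) + v - fl r (y i)) -
      (r : ℝ) • ((M : ℝ) • w + (y j - y i))) ≤ 3 * d := by
    intro i j
    have h1 : nr (rv v - ((M * r : ℕ) : ℝ) • w) ≤ d := by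
      rw [hv]
      exact nr_fl _ _
    have e1 : rv (fl r (y j) + v - fl r (y i)) - (r : ℝ) • ((M : ℝ) • w + (y j - y i)) =
        (rv (fl r (y j)) - (r : ℝ) • y j) + ((rv v - ((M * r : ℕ) : ℝ) • w) +
          -(rv (fl r (y i)) - (r : ℝ) • y i)) := by
      rw [rv_sub, rv_add', smul_add, smul_sub, smul_smul]
      push_cast
      rw [mul_comm (r : ℝ) (M : ℝ)]
      abel
    rw [e1]
    refine (nr_add_le _ _).trans ?_
    have h2 := nr_add_le (rv v - ((M * r : ℕ) : ℝ) • w) (-(rv (fl r (y i)) - (r : ℝ) • y i))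
    rw [nr_neg] at h2
    have h3 := nr_fl r (y i)
    have h4 := nr_fl r (y j)
    linarith
  have E2 : ∀ q : Fin N × Fin N, P.real {ω | δ / 4 * r <
      |τ ω (fl r (y q.1)) (fl r (y q.1) + (fl r (y q.2) + v - fl r (y q.1))) -
        r * tc (mn P τ) ((M : ℝ) • w + (y q.2 - y q.1))|} ≤ p' := fun q =>
    hrr q.1 q.2 r ((hr₃ q.1 q.2).trans hrr₃) _ _ (hdist q.1 q.2)
  have hsub : {ω | ¬ ∀ i j, τ ω (fl r (y i)) ((k + 1) • v) - τ ω (fl r (y j)) ((k + 1) • v) ≤
      r * ρ (y j - y i) + δ * r} ⊆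
      {ω | ∃ x ∈ A, τ ω x ((k + 1) • v) <
        τ ω x (x + v) + τ ω (x + v) ((k + 1) • v) - δ / 4 * r} ∪
      ⋃ q ∈ (Finset.univ : Finset (Fin N × Fin N)), {ω | δ / 4 * r <
        |τ ω (fl r (y q.1)) (fl r (y q.1) + (fl r (y q.2) + v - fl r (y q.1))) -
          r * tc (mn P τ) ((M : ℝ) • w + (y q.2 - y q.1))|} := by
    intro ω hω
    by_contra hn
    rw [Set.mem_union, not_or] at hn
    obtain ⟨hn1, hn2⟩ := hn
    have hn1' : ∀ x ∈ A, τ ω x (x + v) + τ ω (x + v) ((k + 1) • v) - δ / 4 * r ≤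
        τ ω x ((k + 1) • v) := by
      intro x hx
      by_contra hlt
      exact hn1 ⟨x, hx, not_le.1 hlt⟩
    have hn2' : ∀ i j : Fin N,
        |τ ω (fl r (y i)) (fl r (y i) + (fl r (y j) + v - fl r (y i))) -
          r * tc (mn P τ) ((M : ℝ) • w + (y j - y i))| ≤ δ / 4 * r := by
      intro i j
      by_contra hlt
      apply hn2
      rw [Set.mem_iUnion₂]
      exact ⟨(i, j), Finset.mem_univ _, not_le.1 hlt⟩
    apply hω
    intro i j
    have h1 := hn1' _ (hmemA j)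
    have h2 := (abs_le.1 (hn2' i j)).2
    have h3 := (abs_le.1 (hn2' j j)).1
    have e2 : fl r (y i) + (fl r (y j) + v - fl r (y i)) = fl r (y j) + v := by abel
    have e3 : fl r (y j) + (fl r (y j) + v - fl r (y j)) = fl r (y j) + v := by abel
    rw [e2] at h2
    rw [e3, sub_self, add_zero] at h3
    have h4 := h.tri ω (fl r (y i)) (fl r (y j) + v) ((k + 1) • v)
    have h5 := mul_le_mul_of_nonneg_left (hM i j) hr0.le
    rw [mul_sub, mul_add] at h5
    linarith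
  refine (measureReal_mono hsub).trans ?_
  refine (measureReal_union_le _ _).trans ?_
  have h9 : (A.card : ℝ) * (p' * (δ / 4) * r) / (δ / 4 * r) = A.card * p' := by
    field_simp
  rw [h9] at E1
  have h10 : (A.card : ℝ) * p' ≤ N * p' := mul_le_mul_of_nonneg_right hcard hp'.le
  have h11 : P.real (⋃ q ∈ (Finset.univ : Finset (Fin N × Fin N)), {ω | δ / 4 * r <
        |τ ω (fl r (y q.1)) (fl r (y q.1) + (fl r (y q.2) + v - fl r (y q.1))) -
          r * tc (mn P τ) ((M : ℝ) • w + (y q.2 - y q.1))|}) ≤ (N : ℝ) * N * p' := by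
    refine (measureReal_biUnion_finset_le _ _).trans ?_
    refine (Finset.sum_le_sum fun q _ => E2 q).trans ?_
    rw [Finset.sum_const, nsmul_eq_mul, Finset.card_univ, Fintype.card_prod, Fintype.card_fin]
    push_cast
    exact le_rfl
  linarith

end Pool.Agent.Helper79.PB
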