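import Pool.Agent.Helper79.PB.Wd
import Pool.Agent.Helper27.PG.Defs

/-!
# PB-Join: the last step: disjoint rays which are joined by the origin give rays from the origin
-/

set_option autoImplicit false

namespace Pool.Agent.Helper79.PB

open MeasureTheory ProbabilityTheory Pool.Agent.Helper79.GR

open Pool.Agent.Helper41.JT (RayF)

/-- the tails of two rays agree -/
def SameTail {d : ℕ} (x y : V d) (g g' : ℕ → St d) : Prop :=
  ∃ m m', pos x (pre g m) = pos y (pre g' m') ∧ ∀ i, g (m + i) = g' (m' + i)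

theorem pre_add {d : ℕ} (g : ℕ → St d) (m i : ℕ) :
    pre g (m + i) = pre g m ++ pre (fun j => g (m + j)) i := by
  unfold pre
  rw [List.range_add, List.map_append, List.map_map]
  rfl

theorem SameTail.pos_eq {d : ℕ} {x y : V d} {g g' : ℕ → St d} {m m' : ℕ}
    (h1 : pos x (pre g m) = pos y (pre g' m')) (h2 : ∀ i, g (m + i) = g' (m' + i)) (i : ℕ) :
    pos x (pre g (m + i)) = pos y (pre g' (m' + i)) := by
  have e : (fun j => g (m + j)) = fun j => g' (m' + j) := funext h2
  rw [pre_add, pre_add, pos_append, pos_append, h1, e]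

theorem infinite_of_join {d : ℕ} {c : Edge d → ℝ}
    (hj : {g | RayF c 0 g}.Finite → ∀ (x : V d) (g : ℕ → St d), RayF c x g →
      ∃ g', RayF c 0 g' ∧ SameTail x 0 g g')
    (hd : ∀ N : ℕ, ∃ (x : Fin N → V d) (s : Fin N → ℕ → St d),
      (∀ i n, Geo c (x i) (pre (s i) n)) ∧
      ∀ i j, i ≠ j → ∀ k l, pos (x i) (pre (s i) k) ≠ pos (x j) (pre (s j) l)) :
    {g | RayF c 0 g}.Infinite := by
  intro hfin
  obtain ⟨x, s, hs, hdis⟩ := hd (hfin.toFinset.card + 1)
  have h1 : ∀ i, ∃ g', RayF c 0 g' ∧ SameTail (x i) 0 (s i) g' := fun i =>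
    hj hfin (x i) (s i) (hs i)
  choose f hf hst using h1
  have hinj : Function.Injective f := by
    intro i j hij
    by_contra hne
    obtain ⟨m, m', e1, e2⟩ := hst i
    obtain ⟨n, n', e3, e4⟩ := hst j
    rw [← hij] at e3 e4
    have k1 := SameTail.pos_eq e1 e2 n'
    have k2 := SameTail.pos_eq e3 e4 m'
    rw [add_comm n' m', ← k1] at k2
    exact hdis i j hne (m + n') (n + m') k2.symm
  have h2 := Finset.card_le_card_of_injOn (s := (Finset.univ : Finset (Fin (hfin.toFinset.card + 1))))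
    (t := hfin.toFinset) f (fun i _ => by
      rw [Finset.mem_coe, Set.Finite.mem_toFinset]
      exact hf i) (hinj.injOn)
  rw [Finset.card_univ, Fintype.card_fin] at h2
  omega

theorem exists_inj_of_infinite {d : ℕ} {c : Edge d → ℝ} (h : {g | RayF c 0 g}.Infinite) (N : ℕ) :
    ∃ s : Fin N → ℕ → St d, Function.Injective s ∧ ∀ i, Ray c (s i) := by
  let f := h.natEmbedding
  refine ⟨fun i => (f i).1, fun i j hij => ?_, fun i => (f i).2⟩
  exact Fin.ext (f.injective (Subtype.ext hij))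

theorem rays_of_join {d : ℕ} {c : Edge d → ℝ}
    (hj : {g | RayF c 0 g}.Finite → ∀ (x : V d) (g : ℕ → St d), RayF c x g →
      ∃ g', RayF c 0 g' ∧ SameTail x 0 g g')
    (hd : ∀ N : ℕ, ∃ (x : Fin N → V d) (s : Fin N → ℕ → St d),
      (∀ i n, Geo c (x i) (pre (s i) n)) ∧
      ∀ i j, i ≠ j → ∀ k l, pos (x i) (pre (s i) k) ≠ pos (x j) (pre (s j) l)) (N : ℕ) :
    ∃ s : Fin N → ℕ → St d, Function.Injective s ∧ ∀ i, Ray c (s i) :=
  exists_inj_of_infinite (infinite_of_join hj hd) N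

theorem GEnv.envA {Ω : Type*} [MeasurableSpace Ω] {d : ℕ} {P : Measure Ω} {X : Edge d → Ω → ℝ}
    {ν : Measure ℝ} (h : GEnv P X ν) (hd : 0 < d) : Helper27.PG.EnvA P X ν := by
  refine ⟨h.prob, h.meas, h.indep, h.law, ?_, h.na⟩
  have e : Edge d := ed 0 (⟨0, hd⟩, true)
  rw [← h.law e, Measure.map_apply (h.meas e) measurableSet_Iio]
  have h1 : X e ⁻¹' Set.Iio 0 = ∅ := by
    ext ω
    simp [h.nn e ω]
  rw [h1, measure_empty]

end Pool.Agent.Helper79.PB
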