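import Pool.Agent.Helper79.PB.LN

/-!
# PB-L1: the law of large numbers in probability from the law of large numbers in `L¹` in lattice
directions
-/

set_option autoImplicit false

namespace Pool.Agent.Helper79.PB

open MeasureTheory ProbabilityTheory Filter Topology Pool.Agent.Helper79.GR Pool.Agent.Helper79.GQ

variable {Ω : Type*} [MeasurableSpace Ω] {d : ℕ} {P : Measure Ω} {τ : Ω → V d → V d → ℝ}
  {a b : ℝ}

/-- `Proc` without the law of large numbers -/
structure Proc0 (P : Measure Ω) (τ : Ω → V d → V d → ℝ) (a b : ℝ) : Prop where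
  prob : IsProbabilityMeasure P
  int : ∀ x y, Integrable (fun ω => τ ω x y) P
  nn : ∀ ω x y, 0 ≤ τ ω x y
  symm : ∀ ω x y, τ ω x y = τ ω y x
  tri : ∀ ω x y z, τ ω x z ≤ τ ω x y + τ ω y z
  law : ∀ x v, P.map (fun ω => τ ω x (x + v)) = P.map (fun ω => τ ω 0 v)
  sub : SubM a b (mn P τ)

theorem Proc0.mean (h : Proc0 P τ a b) (x y : V d) : ∫ ω, τ ω x y ∂P = mn P τ (y - x) := by
  have h1 := h.law x (y - x)
  rw [add_sub_cancel] at h1
  have h2 : ∫ t, t ∂(P.map fun ω => τ ω x y) = ∫ t, t ∂(P.map fun ω => τ ω 0 (y - x)) := by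
    rw [h1]
  rw [integral_map (h.int x y).aemeasurable (by fun_prop),
    integral_map (h.int 0 (y - x)).aemeasurable (by fun_prop)] at h2
  exact h2

theorem Proc0.markov (h : Proc0 P τ a b) (x y : V d) {t : ℝ} (ht : 0 < t) :
    P.real {ω | t ≤ τ ω x y} ≤ |b| * n1 (y - x) / t := by
  have := h.prob
  have h1 := mul_meas_ge_le_integral_of_nonneg (μ := P) (f := fun ω => τ ω x y)
    (Eventually.of_forall fun ω => h.nn ω x y) (h.int x y) t
  rw [h.mean x y] at h1
  have h2 := h.sub.hi (y - x)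
  have h3 : b * n1 (y - x) ≤ |b| * n1 (y - x) :=
    mul_le_mul_of_nonneg_right (le_abs_self b) (n1_nonneg _)
  rw [le_div_iff₀ ht, mul_comm]
  exact h1.trans (h2.trans h3)

theorem Proc0.proc (h : Proc0 P τ a b) (hL : ∀ v : V d,
    Tendsto (fun n : ℕ => (∫ ω, |τ ω 0 (n • v) - n * tc (mn P τ) (rv v)| ∂P) / n) atTop (𝓝 0)) :
    Proc P τ a b := by
  refine ⟨h.prob, h.int, h.nn, h.symm, h.tri, h.law, h.sub, fun w δ p hδ hp => ?_⟩
  have := h.prob
  -- the lattice direction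
  obtain ⟨M, hM1, hM⟩ : ∃ M : ℕ, 1 ≤ M ∧ |b| * (d / M) * 16 ≤ δ * min p 1 := by
    have hmp : 0 < δ * min p 1 := mul_pos hδ (lt_min hp one_pos)
    obtain ⟨M, hM⟩ := exists_nat_ge (|b| * d * 16 / (δ * min p 1))
    refine ⟨M + 1, by omega, ?_⟩
    have hM' : |b| * d * 16 / (δ * min p 1) ≤ ((M + 1 : ℕ) : ℝ) := by
      push_cast
      linarith
    rw [div_le_iff₀ hmp] at hM'
    have hM0 : (0 : ℝ) < ((M + 1 : ℕ) : ℝ) := by positivity
    have e1 : |b| * (d / ((M + 1 : ℕ) : ℝ)) * 16 = |b| * d * 16 / ((M + 1 : ℕ) : ℝ) := by ring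
    rw [e1, div_le_iff₀ hM0]
    linarith
  have hM0 : (0 : ℝ) < M := by exact_mod_cast hM1
  obtain ⟨v, hv⟩ : ∃ v : V d, v = fl M w := ⟨_, rfl⟩
  have hvw : nr (rv v - (M : ℝ) • w) ≤ d := by
    rw [hv]
    exact nr_fl M w
  -- the distances
  have hdist : ∀ r : ℕ, nr (rv ((r / M) • v) - (r : ℝ) • w) ≤ r * (d / M) + n1 v := by
    intro r
    have e1 : rv ((r / M) • v) - (r : ℝ) • w =
        ((r : ℝ) / M) • (rv v - (M : ℝ) • w) + (((r / M : ℕ) : ℝ) - (r : ℝ) / M) • rv v := by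
      rw [rv_nsmul, smul_sub, smul_smul, div_mul_cancel₀ _ hM0.ne', sub_smul]
      abel
    rw [e1]
    refine (nr_add_le _ _).trans ?_
    rw [nr_smul, nr_smul, abs_of_nonneg (by positivity : (0 : ℝ) ≤ (r : ℝ) / M), nr_rv]
    have h1 : |((r / M : ℕ) : ℝ) - (r : ℝ) / M| ≤ 1 := by
      have h2 : ((r / M : ℕ) : ℝ) ≤ (r : ℝ) / M := Nat.cast_div_le
      have h3 : (r : ℝ) / M < ((r / M : ℕ) : ℝ) + 1 := by
        rw [div_lt_iff₀ hM0]
        have h4 : r < (r / M + 1) * M := by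
          have h5 := Nat.div_add_mod r M
          have h6 := Nat.mod_lt r hM1
          nlinarith
        exact_mod_cast h4
      rw [abs_le]
      constructor <;> linarith
    have h7 : (r : ℝ) / M * nr (rv v - (M : ℝ) • w) ≤ r / M * d :=
      mul_le_mul_of_nonneg_left hvw (by positivity)
    have h8 : |((r / M : ℕ) : ℝ) - (r : ℝ) / M| * n1 v ≤ 1 * n1 v :=
      mul_le_mul_of_nonneg_right h1 (n1_nonneg v)
    have h9 : (r : ℝ) / M * d = r * (d / M) := by ring
    linarith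
  have hdist' : ∀ r : ℕ, n1 (fl r w - (r / M) • v) ≤ d + (r * (d / M) + n1 v) := by
    intro r
    have e2 : rv (fl r w - (r / M) • v) =
        (rv (fl r w) - (r : ℝ) • w) + -(rv ((r / M) • v) - (r : ℝ) • w) := by
      rw [rv_sub]
      abel
    rw [← nr_rv, e2]
    refine (nr_add_le _ _).trans ?_
    rw [nr_neg]
    exact add_le_add (nr_fl r w) (hdist r)
  -- the law of large numbers in `L¹`
  have hη : 0 < δ * p / 8 := by positivity
  obtain ⟨n₁, hn₁⟩ := eventually_atTop.1 ((hL v).eventually_lt_const hη)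
  obtain ⟨r₂, hr₂⟩ := exists_nat_ge (|b| * (d + n1 v) * 16 / (δ * min p 1))
  have hmp : 0 < δ * min p 1 := mul_pos hδ (lt_min hp one_pos)
  refine ⟨max (M * (n₁ + 1)) (max r₂ 1), fun r hr => ?_⟩
  have hrr₁ : M * (n₁ + 1) ≤ r := (le_max_left _ _).trans hr
  have hrr₂ : r₂ ≤ r := (le_max_left _ _).trans ((le_max_right _ _).trans hr)
  have hr1 : 1 ≤ r := (le_max_right _ _).trans ((le_max_right _ _).trans hr)
  have hr0 : (0 : ℝ) < r := by exact_mod_cast hr1
  have hn : n₁ + 1 ≤ r / M := by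
    rw [Nat.le_div_iff_mul_le (by omega)]
    rw [mul_comm]
    exact hrr₁
  have hn0 : (0 : ℝ) < ((r / M : ℕ) : ℝ) := by
    have : 0 < r / M := by omega
    exact_mod_cast this
  have hnr : ((r / M : ℕ) : ℝ) ≤ r := by exact_mod_cast Nat.div_le_self r M
  have h16 : |b| * (d + (r * (d / M) + n1 v)) * 8 ≤ δ * min p 1 * r := by
    have h1 : (r₂ : ℝ) ≤ r := by exact_mod_cast hrr₂
    have h2 := hr₂.trans h1
    rw [div_le_iff₀ hmp] at h2
    have h3 : |b| * (d / M) * 16 * r ≤ δ * min p 1 * r := mul_le_mul_of_nonneg_right hM hr0.le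
    have e3 : |b| * (d + (r * (d / M) + n1 v)) * 8 =
        (|b| * (d + n1 v) * 16 + |b| * (d / M) * 16 * r) / 2 := by ring
    rw [e3]
    linarith
  have hp1 : δ * min p 1 * r ≤ δ * r := by
    have : δ * min p 1 ≤ δ * 1 := mul_le_mul_of_nonneg_left (min_le_right _ _) hδ.le
    nlinarith
  have hp2 : δ * min p 1 * r ≤ δ * p * r := by
    have : δ * min p 1 ≤ δ * p := mul_le_mul_of_nonneg_left (min_le_left _ _) hδ.le
    exact mul_le_mul_of_nonneg_right this hr0.le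
  -- the time constants
  have htc : |(r : ℝ) * tc (mn P τ) w - ((r / M : ℕ) : ℝ) * tc (mn P τ) (rv v)| ≤ δ / 4 * r := by
    rw [← tc_smul h.sub _ hr0.le, ← tc_smul h.sub _ hn0.le]
    refine (tc_lip h.sub _ _).trans ?_
    have e4 : nr ((r : ℝ) • w - ((r / M : ℕ) : ℝ) • rv v) ≤ r * (d / M) + n1 v := by
      rw [nr_sub_comm, ← rv_nsmul]
      exact hdist r
    have h5 : b * nr ((r : ℝ) • w - ((r / M : ℕ) : ℝ) • rv v) ≤
        |b| * (d + (r * (d / M) + n1 v)) := by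
      refine (mul_le_mul_of_nonneg_right (le_abs_self b) (nr_nonneg _)).trans ?_
      refine mul_le_mul_of_nonneg_left (e4.trans ?_) (abs_nonneg b)
      linarith [(Nat.cast_nonneg d : (0 : ℝ) ≤ d)]
    have h5' : 0 ≤ δ * r := (mul_pos hδ hr0).le
    linarith
  have hsub : {ω | δ * r < |τ ω 0 (fl r w) - r * tc (mn P τ) w|} ⊆
      {ω | δ / 4 * r ≤ |τ ω 0 ((r / M) • v) - ((r / M : ℕ) : ℝ) * tc (mn P τ) (rv v)|} ∪
        {ω | δ / 4 * r ≤ τ ω ((r / M) • v) (fl r w)} := by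
    intro ω hω
    by_contra hn
    simp only [Set.mem_union, Set.mem_ofPred_eq, not_or, not_le] at hn hω
    obtain ⟨hn1, hn2⟩ := hn
    have h1 := h.tri ω 0 ((r / M) • v) (fl r w)
    have h2 := h.tri ω 0 (fl r w) ((r / M) • v)
    rw [h.symm ω (fl r w) ((r / M) • v)] at h2
    have h3 := abs_lt.1 hn1
    have h4 := abs_le.1 htc
    have h5 : |τ ω 0 (fl r w) - r * tc (mn P τ) w| ≤ δ * r := by
      rw [abs_le]
      constructor
      · linarith [h3.1, h4.1, h4.2]
      · linarith [h3.2, h4.1, h4.2]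
    exact absurd hω (not_lt.2 h5)
  refine (measureReal_mono hsub (measure_ne_top _ _)).trans ?_
  refine (measureReal_union_le _ _).trans ?_
  have h6 := h.markov ((r / M) • v) (fl r w) (t := δ / 4 * r) (by positivity)
  have h7 : |b| * n1 (fl r w - (r / M) • v) / (δ / 4 * r) ≤ p / 2 := by
    have h8 : |b| * n1 (fl r w - (r / M) • v) ≤ |b| * (d + (r * (d / M) + n1 v)) :=
      mul_le_mul_of_nonneg_left (hdist' r) (abs_nonneg b)
    rw [div_le_iff₀ (by positivity)]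
    nlinarith
  have h9 := mul_meas_ge_le_integral_of_nonneg (μ := P)
    (f := fun ω => |τ ω 0 ((r / M) • v) - ((r / M : ℕ) : ℝ) * tc (mn P τ) (rv v)|)
    (Eventually.of_forall fun ω => abs_nonneg _)
    (((h.int 0 ((r / M) • v)).sub (integrable_const _)).abs) (δ / 4 * r)
  have h10 := hn₁ (r / M) (by omega)
  rw [div_lt_iff₀ hn0] at h10
  have h11 : P.real {ω | δ / 4 * r ≤
      |τ ω 0 ((r / M) • v) - ((r / M : ℕ) : ℝ) * tc (mn P τ) (rv v)|} ≤ p / 2 := by
    have h12 : δ / 4 * r * P.real {ω | δ / 4 * r ≤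
        |τ ω 0 ((r / M) • v) - ((r / M : ℕ) : ℝ) * tc (mn P τ) (rv v)|} ≤ δ / 4 * r * (p / 2) := by
      refine h9.trans ?_
      have h13 : δ * p / 8 * ((r / M : ℕ) : ℝ) ≤ δ * p / 8 * r :=
        mul_le_mul_of_nonneg_left hnr hη.le
      have e5 : δ / 4 * r * (p / 2) = δ * p / 8 * r := by ring
      rw [e5]
      linarith
    exact le_of_mul_le_mul_left h12 (by positivity)
  linarith

end Pool.Agent.Helper79.PB
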