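import Pool.Agent.Helper79.PB.Defs

/-!
# PB-LN: the law of large numbers from every point to almost proportional points
-/

set_option autoImplicit false

namespace Pool.Agent.Helper79.PB

open MeasureTheory ProbabilityTheory Filter Topology Pool.Agent.Helper79.GR Pool.Agent.Helper79.GQ

variable {Ω : Type*} [MeasurableSpace Ω] {d : ℕ} {P : Measure Ω} {τ : Ω → V d → V d → ℝ}
  {a b : ℝ}

/-- Markov's inequality for the passage time -/
theorem Proc.markov (h : Proc P τ a b) (x y : V d) {t : ℝ} (ht : 0 < t) :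
    P.real {ω | t ≤ τ ω x y} ≤ |b| * n1 (y - x) / t := by
  have := h.prob
  have h1 := mul_meas_ge_le_integral_of_nonneg (μ := P) (f := fun ω => τ ω x y)
    (Eventually.of_forall fun ω => h.nn ω x y) (h.int x y) t
  rw [h.mean x y] at h1
  have h2 := h.sub.hi (y - x)
  have h3 : b * n1 (y - x) ≤ |b| * n1 (y - x) :=
    mul_le_mul_of_nonneg_right (le_abs_self b) (n1_nonneg _)
  rw [le_div_iff₀ ht, mul_comm]
  exact h1.trans (h2.trans h3)

theorem Proc.lln_near (h : Proc P τ a b) (z : F d) (D δ p : ℝ) (hδ : 0 < δ)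
    (hp : 0 < p) : ∃ r₀ : ℕ, ∀ r ≥ r₀, ∀ x u : V d, nr (rv u - (r : ℝ) • z) ≤ D →
      P.real {ω | δ * r < |τ ω x (x + u) - r * tc (mn P τ) z|} ≤ p := by
  have := h.prob
  obtain ⟨r₁, hr₁⟩ := h.lln z (δ / 2) (p / 2) (half_pos hδ) (half_pos hp)
  obtain ⟨r₂, hr₂⟩ := exists_nat_ge (4 * (|b| * (|D| + d)) / (δ * p))
  refine ⟨max r₁ (max r₂ 1), fun r hr x u hu => ?_⟩
  have hrr₁ : r₁ ≤ r := (le_max_left _ _).trans hr
  have hrr₂ : r₂ ≤ r := (le_max_left _ _).trans ((le_max_right _ _).trans hr)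
  have hr1 : 1 ≤ r := (le_max_right _ _).trans ((le_max_right _ _).trans hr)
  have hr0 : (0 : ℝ) < r := by exact_mod_cast hr1
  have hmeas : MeasurableSet {t : ℝ | δ * r < |t - r * tc (mn P τ) z|} := by
    refine measurableSet_lt measurable_const ?_
    fun_prop
  have e1 := h.prob_eq x u hmeas
  have e1' : P.real {ω | δ * r < |τ ω x (x + u) - r * tc (mn P τ) z|} =
      P.real {ω | δ * r < |τ ω 0 u - r * tc (mn P τ) z|} := e1
  rw [e1']
  have hsub : {ω | δ * r < |τ ω 0 u - r * tc (mn P τ) z|} ⊆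
      {ω | δ / 2 * r < |τ ω 0 (fl r z) - r * tc (mn P τ) z|} ∪
        {ω | δ / 2 * r ≤ τ ω (fl r z) u} := by
    intro ω hω
    by_contra hn
    simp only [Set.mem_union, Set.mem_ofPred_eq, not_or, not_lt, not_le] at hn hω
    obtain ⟨hn1, hn2⟩ := hn
    have h1 := h.tri ω 0 (fl r z) u
    have h2 := h.tri ω 0 u (fl r z)
    rw [h.symm ω u (fl r z)] at h2
    have h3 := abs_le.1 hn1
    have h4 : |τ ω 0 u - r * tc (mn P τ) z| ≤ δ * r := by
      rw [abs_le]
      constructor
      · linarith [h3.1]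
      · linarith [h3.2]
    exact absurd hω (not_lt.2 h4)
  refine (measureReal_mono hsub).trans ?_
  refine (measureReal_union_le _ _).trans ?_
  have h5 := hr₁ r hrr₁
  have h6 := h.markov (fl r z) u (t := δ / 2 * r) (by positivity)
  have h7 : n1 (u - fl r z) ≤ |D| + d := by
    have e2 : rv (u - fl r z) = (rv u - (r : ℝ) • z) + -(rv (fl r z) - (r : ℝ) • z) := by
      rw [rv_sub]
      abel
    rw [← nr_rv, e2]
    refine (nr_add_le _ _).trans ?_
    rw [nr_neg]
    exact add_le_add (hu.trans (le_abs_self D)) (nr_fl r z)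
  have h8 : |b| * n1 (u - fl r z) / (δ / 2 * r) ≤ p / 2 := by
    have h9 : |b| * n1 (u - fl r z) ≤ |b| * (|D| + d) := mul_le_mul_of_nonneg_left h7 (abs_nonneg b)
    have h10 : (r₂ : ℝ) ≤ r := by exact_mod_cast hrr₂
    have h11 := hr₂.trans h10
    rw [div_le_iff₀ (by positivity)] at h11
    rw [div_le_iff₀ (by positivity)]
    nlinarith
  linarith

end Pool.Agent.Helper79.PB
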