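import Pool.Agent.Helper79.PB.Asm
import Pool.Agent.Helper42.LW.Proc
import Pool.Agent.Helper95.LW.Err2
import Pool.Agent.Helper65.LW.LowS

/-!
# PB-Law: the law half is proved
-/

set_option autoImplicit false

namespace Pool.Agent.Helper79.PB

open MeasureTheory ProbabilityTheory Filter Topology Pool.Agent.Helper79.GR Pool.Agent.Helper79.GQ
open Pool.Agent.Helper51.NP Pool.Agent.Helper51.GP Pool.Agent.Helper95.LW Pool.Agent.Helper2.PG
open Pool.Agent.Helper34.GP Pool.Agent.Helper67.LL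

variable {Ω : Type} [MeasurableSpace Ω] {d : ℕ} {P : Measure Ω} {X : Edge d → Ω → ℝ}
  {ν : Measure ℝ} {κ : ℝ}

theorem Dat.iid (h : Dat P X ν κ) : Iid P X ν := ⟨h.prob, h.meas, h.indep, h.law⟩

theorem Dat.ze (h : Dat P X ν κ) : ν (Set.Iic 0) = 0 := Helper56.JT.nu_Iic h.toEnvA

theorem Dat.le (h : Dat P X ν κ) : Helper42.LW.LE P X ν κ := ⟨h.iid, h.nn, h.ze, h.k1, h.kp⟩

theorem procIn (d : ℕ) : ProcIn d := by
  intro Ω mΩ P X ν κ h
  obtain ⟨a, b, -, -, hp⟩ := h.le.exists_proc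
  exact ⟨a, b, hp⟩

theorem errIn {d : ℕ} (hd : 2 ≤ d) : ErrIn d := by
  intro Ω mΩ P X ν κ h
  have hκ : 0 < κ := lt_of_lt_of_le one_pos h.k1
  exact ⟨fun ω x => er κ (cf X ω) x, ae_cmp hd hκ h.iid h.ze h.kp, fun p hp => er_tight h.iid hp⟩

theorem numIn (d : ℕ) : NumIn d := by
  intro Ω mΩ P X ν κ h
  exact exists_N h.iid h.kp

theorem lowIn {d : ℕ} (hd : 1 ≤ d) : LowIn d := by
  intro Ω mΩ P X ν κ h
  have hκ : 0 < κ := lt_of_lt_of_le one_pos h.k1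
  obtain ⟨a, b, -, -, hp⟩ := h.le.exists_proc
  have h0 : 0 ≤ (Dl d : ℝ) ^ 2 * ν.real (Set.Ioi κ) := by positivity
  have h1 := h.kp
  refine ⟨2, by norm_num, ?_⟩
  exact Helper65.LW.low_u (ρ := ((Dl d : ℝ) ^ 2 * ν.real (Set.Ioi κ) + 1) / 2) h.prob h.meas h.indep
    h.law h.atom h.nonneg h.nn hd hκ (by linarith) (by linarith) (by linarith) hp.sub

/-- **the law half** -/
theorem lawA {d : ℕ} (hd : 2 ≤ d) : LawA d :=
  lawA_of hd (procIn d) (errIn hd) (numIn d) (lowIn (by omega))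

end Pool.Agent.Helper79.PB
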