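import Pool.Agent.Helper79.PB.Dis
import Pool.Agent.Helper79.PG.Gr

/-!
# PB-Np: if the time constant is not a maximum of finitely many linear functionals, then almost
surely there are `N` pairwise disjoint geodesic rays, for every `N`
-/

set_option autoImplicit false

namespace Pool.Agent.Helper79.PB

open MeasureTheory ProbabilityTheory Pool.Agent.Helper79.GR Pool.Agent.Helper79.GQ

variable {Ω : Type*} [MeasurableSpace Ω] {d : ℕ} {P : Measure Ω} {c : Ω → Edge d → ℝ}
  {hat : Ω → V d → V d} {a b : ℝ}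

theorem Hats.disjoint_of_not_poly (h : Hats P c hat a b) (hd : 0 < d)
    (hnp : ¬ Helper79.PH.Poly (tc (mn P (tt c hat)))) (N : ℕ) :
    ∀ᵐ ω ∂P, ∃ (x : Fin N → V d) (s : Fin N → ℕ → St d),
      (∀ i n, Geo (c ω) (x i) (pre (s i) n)) ∧
      ∀ i j, i ≠ j → ∀ k l, pos (x i) (pre (s i) k) ≠ pos (x j) (pre (s j) l) := by
  have hg := Helper78.PG.gau_tc h.proc.sub
  obtain ⟨w, ρ, g, hD⟩ :=
    Helper79.PH.dir_of_infinite hg hd (Helper79.PH.grads_infinite hg hnp) N
  exact h.disjoint hD

end Pool.Agent.Helper79.PB
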