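import Pool.Agent.Helper79.PB.Law

/-!
# PB-Own: infinitely many geodesic rays from every vertex, and disjoint rays
-/

set_option autoImplicit false

namespace Pool.Agent.Helper79.PB

open MeasureTheory ProbabilityTheory Pool.Agent.Helper79.GR Pool.Agent.Helper79.GQ

open Pool.Agent.Helper41.JT (RayF)

/-- the rays of the statement: self-avoiding lattice paths with minimal finite segments -/
def Pth {d : ℕ} (t : Sym2 (Fin d → ℤ) → ℝ) (γ : ℕ → (Fin d → ℤ)) : Prop :=
  Function.Injective γ ∧ (∀ k, ∑ i, |γ k i - γ (k + 1) i| = 1) ∧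
    ∀ m n : ℕ, m ≤ n → ∀ (L : ℕ) (q : ℕ → (Fin d → ℤ)), q 0 = γ m → q L = γ n →
      (∀ k < L, ∑ i, |q k i - q (k + 1) i| = 1) →
      ∑ k ∈ Finset.range (n - m), t s(γ (m + k), γ (m + k + 1)) ≤
        ∑ k ∈ Finset.range L, t s(q k, q (k + 1))

theorem infinite_at {d : ℕ} {c : Edge d → ℝ} (y : V d)
    (hj : {g | RayF c y g}.Finite → ∀ (x : V d) (g : ℕ → St d), RayF c x g →
      ∃ g', RayF c y g' ∧ SameTail x y g g')
    (hd : ∀ N : ℕ, ∃ (x : Fin N → V d) (s : Fin N → ℕ → St d),
      (∀ i n, Geo c (x i) (pre (s i) n)) ∧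
      ∀ i j, i ≠ j → ∀ k l, pos (x i) (pre (s i) k) ≠ pos (x j) (pre (s j) l)) :
    {g | RayF c y g}.Infinite := by
  intro hfin
  obtain ⟨x, s, hs, hdis⟩ := hd (hfin.toFinset.card + 1)
  have h1 : ∀ i, ∃ g', RayF c y g' ∧ SameTail (x i) y (s i) g' := fun i =>
    hj hfin (x i) (s i) (hs i)
  choose f hf hst using h1
  have hinj : Function.Injective f := by
    intro i j hij
    by_contra hne
    obtain ⟨m, m', e1, e2⟩ := hst i
    obtain ⟨n, n', e3, e4⟩ := hst j
    rw [← hij] at e3 e4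
    have k1 := SameTail.pos_eq e1 e2 n'
    have k2 := SameTail.pos_eq e3 e4 m'
    rw [add_comm n' m', ← k1] at k2
    exact hdis i j hne (m + n') (n + m') k2.symm
  have h2 := Finset.card_le_card_of_injOn
    (s := (Finset.univ : Finset (Fin (hfin.toFinset.card + 1))))
    (t := hfin.toFinset) f (fun i _ => by
      rw [Finset.mem_coe, Set.Finite.mem_toFinset]
      exact hf i) (hinj.injOn)
  rw [Finset.card_univ, Fintype.card_fin] at h2
  omega

/-- the result for the weights of the edges -/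
theorem env_rays {d : ℕ} (hd : 2 ≤ d) {Ω : Type} [mΩ : MeasurableSpace Ω] {P : Measure Ω}
    {X : Edge d → Ω → ℝ} {ν : Measure ℝ} (h : GEnv P X ν) :
    ∀ᵐ ω ∂P, (∀ y, {g | RayF (cf X ω) y g}.Infinite) ∧
      ∀ N : ℕ, ∃ (x : Fin N → V d) (s : Fin N → ℕ → St d),
        (∀ i n, Geo (cf X ω) (x i) (pre (s i) n)) ∧
        ∀ i j, i ≠ j → ∀ k l, pos (x i) (pre (s i) k) ≠ pos (x j) (pre (s j) l) := by
  have hA := h.envA (by omega)
  obtain ⟨τ, err, a, b, hC, hnp⟩ := lawA hd Ω mΩ P X ν hA h.nn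
  have h1 : ∀ᵐ ω ∂P, ∀ N : ℕ, ∃ (x : Fin N → V d) (s : Fin N → ℕ → St d),
      (∀ i n, Geo (cf X ω) (x i) (pre (s i) n)) ∧
      ∀ i j, i ≠ j → ∀ k l, pos (x i) (pre (s i) k) ≠ pos (x j) (pre (s j) l) :=
    ae_all_iff.2 fun N => hC.disjoint_of_not_poly (by omega) hnp N
  filter_upwards [h1, joinA (by omega : 1 ≤ d) Ω mΩ P X ν hA] with ω hω hjω
  exact ⟨fun y => infinite_at y (fun hfin x g hg => hjω x y hfin g hg) hω, hω⟩

private theorem OW_sv_apply {d : ℕ} (s : St d) : sv s s.1 ≠ 0 := by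
  rcases s with ⟨i, _ | _⟩ <;> simp [sv]

private theorem OW_sv_inj {d : ℕ} {s s' : St d} (h : sv s = sv s') : s = s' := by
  have h1 : s.1 = s'.1 := by
    by_contra hne
    have h2 := congrFun h s.1
    have h3 : sv s' s.1 = 0 := Pi.single_eq_of_ne hne _
    rw [h3] at h2
    exact OW_sv_apply s h2
  rcases s with ⟨i, b⟩
  rcases s' with ⟨i', b'⟩
  have h1' : i = i' := h1
  subst h1'
  have h2 := congrFun h i
  simp only [sv, Pi.single_eq_same] at h2
  cases b <;> cases b' <;> simp_all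

private theorem OW_near {d : ℕ} {x y : V d} (h : ∑ i, |x i - y i| = 1) :
    ∃ s : St d, y = x + sv s := by
  obtain ⟨i, hi⟩ : ∃ i, x i ≠ y i := by
    by_contra hcon
    push Not at hcon
    rw [Finset.sum_eq_zero (fun i _ => by rw [hcon i, sub_self, abs_zero])] at h
    exact zero_ne_one h
  have h1 : 1 ≤ |x i - y i| := Int.one_le_abs (sub_ne_zero.2 hi)
  have h2 := Finset.add_sum_erase Finset.univ (fun j => |x j - y j|) (Finset.mem_univ i)
  have h3 : 0 ≤ ∑ j ∈ Finset.univ.erase i, |x j - y j| :=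
    Finset.sum_nonneg fun j _ => abs_nonneg _
  have h2' : |x i - y i| + ∑ j ∈ Finset.univ.erase i, |x j - y j| = 1 := h2.trans h
  have h4 : ∑ j ∈ Finset.univ.erase i, |x j - y j| = 0 := by omega
  have h5 : |x i - y i| = 1 := by omega
  rw [Finset.sum_eq_zero_iff_of_nonneg (fun j _ => abs_nonneg _)] at h4
  have h6 : ∀ j, j ≠ i → y j = x j := by
    intro j hj
    have h7 := h4 j (Finset.mem_erase.2 ⟨hj, Finset.mem_univ _⟩)
    have h8 := abs_eq_zero.1 h7
    omega
  rcases abs_eq (zero_le_one) |>.1 h5 with h7 | h7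
  · refine ⟨(i, false), funext fun j => ?_⟩
    by_cases hj : j = i
    · subst hj
      simp only [sv, Pi.add_apply, Pi.single_eq_same]
      simp
      omega
    · rw [h6 j hj]
      simp [sv, hj]
  · refine ⟨(i, true), funext fun j => ?_⟩
    by_cases hj : j = i
    · subst hj
      simp only [sv, Pi.add_apply, Pi.single_eq_same]
      simp
      omega
    · rw [h6 j hj]
      simp [sv, hj]

private theorem OW_walk {d : ℕ} {c : Edge d → ℝ} (t : Sym2 (Fin d → ℤ) → ℝ)
    (ht : ∀ e : Edge d, t e.1 = c e) (q : ℕ → V d) (u : ℕ → St d) (L : ℕ)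
    (hq : ∀ k < L, q (k + 1) = q k + sv (u k)) :
    pos (q 0) (pre u L) = q L ∧
      cost c (q 0) (pre u L) = ∑ k ∈ Finset.range L, t s(q k, q (k + 1)) := by
  induction L with
  | zero => exact ⟨rfl, rfl⟩
  | succ L ih =>
    obtain ⟨h1, h2⟩ := ih fun k hk => hq k (by omega)
    have h3 : pre u (L + 1) = pre u L ++ [u L] := by
      unfold pre
      rw [List.range_succ, List.map_append]
      rfl
    have h4 := hq L (by omega)
    constructor
    · rw [h3, pos_append, h1, h4]
      rfl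
    · rw [h3, cost_append, h1, h2, Finset.sum_range_succ]
      congr 1
      show c (ed (q L) (u L)) + 0 = _
      rw [add_zero, ← ht, h4]
      rfl

theorem pth_of_geo {d : ℕ} {c : Edge d → ℝ} (hb : ∀ e, 0 < c e)
    (t : Sym2 (Fin d → ℤ) → ℝ) (ht : ∀ e : Edge d, t e.1 = c e) (x : V d) (s : ℕ → St d)
    (hr : ∀ n, Geo c x (pre s n)) : Pth t (fun k => pos x (pre s k)) := by
  let γ : ℕ → V d := fun k => pos x (pre s k)
  have hpre : ∀ (u : ℕ → St d) (L : ℕ), pre u (L + 1) = pre u L ++ [u L] := by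
    intro u L
    unfold pre
    rw [List.range_succ, List.map_append]
    rfl
  have hstep : ∀ k, γ (k + 1) = γ k + sv (s k) := by
    intro k
    show pos x (pre s (k + 1)) = _
    rw [hpre, pos_append]
    rfl
  have hlen : ∀ (u : ℕ → St d) (L : ℕ), (pre u L).length = L := by
    intro u L
    simp [pre]
  have htake : ∀ (u : ℕ → St d) (i j : ℕ), i ≤ j → (pre u j).take i = pre u i := by
    intro u i j hij
    unfold pre
    rw [← List.map_take, List.take_range, min_eq_left hij]
  refine ⟨?_, ?_, ?_⟩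
  · have key : ∀ m n, m < n → γ m ≠ γ n := by
      intro m n hmn h
      have h1 := geo_pos_inj hb (hr n) hmn (by rw [hlen])
      rw [htake _ _ _ hmn.le, htake _ _ _ (le_refl n)] at h1
      exact h1 h
    intro m n h
    rcases lt_trichotomy m n with h1 | h1 | h1
    · exact absurd h (key m n h1)
    · exact h1
    · exact absurd h.symm (key n m h1)
  · intro k
    show ∑ i, |γ k i - γ (k + 1) i| = 1
    rw [hstep]
    exact sum_sv _ _
  · intro m n hmn L q hq0 hqL hq
    have hex : ∀ k, ∃ u : St d, k < L → q (k + 1) = q k + sv u := by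
      intro k
      by_cases hk : k < L
      · obtain ⟨u, hu⟩ := OW_near (hq k hk)
        exact ⟨u, fun _ => hu⟩
      · exact ⟨s 0, fun h => absurd h hk⟩
    choose u hu using hex
    obtain ⟨h1, h2⟩ := OW_walk t ht q u L hu
    obtain ⟨h3, h4⟩ := OW_walk t ht (fun k => γ (m + k)) (fun k => s (m + k)) (n - m)
      (fun k _ => hstep (m + k))
    have h5 : pre s n = pre s m ++ pre (fun k => s (m + k)) (n - m) := by
      unfold pre
      conv_lhs => rw [show n = m + (n - m) by omega, List.range_add, List.map_append,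
        List.map_map]
      rfl
    have h6 := hr n (pre s m ++ pre u L) (by
      rw [pos_append]
      show pos (γ m) (pre u L) = γ n
      rw [← show q 0 = γ m from hq0, h1, show q L = γ n from hqL])
    rw [h5, cost_append, cost_append] at h6
    have h7 : cost c (γ m) (pre (fun k => s (m + k)) (n - m)) ≤
        cost c (γ m) (pre u L) := le_of_add_le_add_left h6
    rw [← show q 0 = γ m from hq0, h2] at h7
    have h8 : cost c (q 0) (pre (fun k => s (m + k)) (n - m)) =
        ∑ k ∈ Finset.range (n - m), t s(γ (m + k), γ (m + (k + 1))) := by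
      rw [show q 0 = γ m from hq0]
      exact h4
    rw [h8] at h7
    exact h7

theorem own (d : ℕ) (hd : 2 ≤ d) :
  ∀ (μ : Measure ℝ), IsProbabilityMeasure μ → NoAtoms μ → μ (Set.Iio 0) = 0 →
  ∀ (Ω : Type) (mΩ : MeasurableSpace Ω) (P : Measure Ω), IsProbabilityMeasure P →
  ∀ (t : Sym2 (Fin d → ℤ) → Ω → ℝ),
    (∀ e, Measurable (t e)) →
    iIndepFun
      (fun e : {e : Sym2 (Fin d → ℤ) //
          ∃ x y : Fin d → ℤ, e = s(x, y) ∧ ∑ i, |x i - y i| = 1} => t e.1)
      P →
    (∀ x y : Fin d → ℤ, ∑ i, |x i - y i| = 1 →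
      Measure.map (t s(x, y)) P = μ) →
    ∀ᵐ ω ∂P, (∀ x : Fin d → ℤ, Set.Infinite {γ : ℕ → (Fin d → ℤ) |
        γ 0 = x ∧ Pth (fun e => t e ω) γ}) ∧
      ∀ N : ℕ, ∃ γ : Fin N → ℕ → (Fin d → ℤ),
        (∀ i j, i ≠ j → ∀ k l, γ i k ≠ γ j l) ∧ ∀ j, Pth (fun e => t e ω) (γ j) := by
  intro μ hμ hna hsupp Ω mΩ P hP t htm hti htl
  have hna' : ∀ x, μ {x} = 0 := (show NullSingletonClass μ from hna).measure_singleton
  have hae : ∀ᵐ x ∂μ, 0 < x := by
    rw [ae_iff]
    have h1 : {x : ℝ | ¬ 0 < x} ⊆ Set.Iio 0 ∪ {0} := by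
      intro x hx
      rcases lt_or_eq_of_le (not_lt.1 hx) with h | h
      · exact Or.inl h
      · exact Or.inr h
    exact measure_mono_null h1 (measure_union_null hsupp (hna' 0))
  have hgm : Measurable fun x : ℝ => max x 0 := by fun_prop
  have hgae : ∀ᵐ x ∂μ, max x 0 = x := by
    filter_upwards [hae] with x hx
    exact max_eq_left hx.le
  have hgmap : μ.map (fun x : ℝ => max x 0) = μ := by
    rw [Measure.map_congr (g := id) hgae, Measure.map_id]
  have hlaw : ∀ e : Edge d, P.map (t e.1) = μ := by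
    rintro ⟨e, x, y, rfl, hxy⟩
    exact htl x y hxy
  have henv : GEnv P (fun (e : Edge d) ω => max (t e.1 ω) 0) μ := by
    refine ⟨hP, fun e => hgm.comp (htm e.1), ?_, ?_, hna', fun e ω => le_max_right _ _⟩
    · exact hti.comp (fun _ => fun x : ℝ => max x 0) (fun _ => hgm)
    · intro e
      have h1 : P.map (fun ω => max (t e.1 ω) 0) = (P.map (t e.1)).map (fun x : ℝ => max x 0) := by
        rw [Measure.map_map hgm (htm e.1)]
        rfl
      rw [h1, hlaw e, hgmap]
  have hedge : ∀ᵐ ω ∂P, ∀ e : Edge d, 0 < t e.1 ω := by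
    rw [ae_all_iff]
    intro e
    have h1 : ∀ᵐ x ∂(P.map (t e.1)), 0 < x := by
      rw [hlaw e]
      exact hae
    exact ae_of_ae_map (htm e.1).aemeasurable h1
  filter_upwards [env_rays hd henv, hedge] with ω hω hω2
  have hpos : ∀ e : Edge d, 0 < max (t e.1 ω) 0 := fun e => lt_max_of_lt_left (hω2 e)
  have hte : ∀ e : Edge d, t e.1 ω = max (t e.1 ω) 0 := fun e => (max_eq_left (hω2 e).le).symm
  refine ⟨fun x => ?_, fun N => ?_⟩
  · have hinj : Set.InjOn (fun (g : ℕ → St d) (k : ℕ) => pos x (pre g k))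
        {g | RayF (cf (fun (e : Edge d) ω => max (t e.1 ω) 0) ω) x g} := by
      intro g _ g' _ hgg
      funext k
      apply OW_sv_inj
      have hstep : ∀ (u : ℕ → St d), pos x (pre u (k + 1)) = pos x (pre u k) + sv (u k) := by
        intro u
        have h3 : pre u (k + 1) = pre u k ++ [u k] := by
          unfold pre
          rw [List.range_succ, List.map_append]
          rfl
        rw [h3, pos_append]
        rfl
      have h1 : pos x (pre g (k + 1)) = pos x (pre g' (k + 1)) := congrFun hgg (k + 1)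
      have h2 : pos x (pre g k) = pos x (pre g' k) := congrFun hgg k
      rw [hstep g, hstep g', h2] at h1
      exact add_left_cancel h1
    refine ((hω.1 x).image hinj).mono ?_
    rintro _ ⟨g, hg, rfl⟩
    exact ⟨rfl, pth_of_geo hpos (fun e => t e ω) hte x g hg⟩
  · obtain ⟨x, s, hs, hdis⟩ := hω.2 N
    exact ⟨fun i k => pos (x i) (pre (s i) k), hdis,
      fun j => pth_of_geo hpos (fun e => t e ω) hte (x j) (s j) (hs j)⟩

end Pool.Agent.Helper79.PB
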