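import Pool.Agent.Helper79.GR.FA
import Pool.Agent.Helper79.GR.DF
import Pool.Agent.Helper41.JT.Bas

/-!
# PB-Wd: the words of the frozen statement S19167

`rays_to_paths` for positive weights (compare `GR/FA.lean`), and the reduction of the frozen
statement to non-negative weights indexed by the edges.
-/

set_option autoImplicit false

namespace Pool.Agent.Helper79.PB

open MeasureTheory ProbabilityTheory Pool.Agent.Helper79.GR

theorem cost_pos {d : ℕ} {c : Edge d → ℝ} (hp : ∀ e, 0 < c e) (x : V d) {w : List (St d)}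
    (hw : w ≠ []) : 0 < cost c x w := by
  cases w with
  | nil => exact absurd rfl hw
  | cons s w =>
    exact add_pos_of_pos_of_nonneg (hp _) (Helper41.JT.cost_nonneg hp _ w)

theorem geo_pos_inj {d : ℕ} {c : Edge d → ℝ} (hp : ∀ e, 0 < c e) {x : V d}
    {w : List (St d)} (h : Geo c x w) {i j : ℕ} (hij : i < j) (hj : j ≤ w.length) :
    pos x (w.take i) ≠ pos x (w.take j) := by
  intro heq
  have hpp : pos x (w.take i ++ w.drop j) = pos x w := by
    conv_rhs => rw [← List.take_append_drop j w]
    rw [pos_append, pos_append, heq]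
  have h1 := h _ hpp
  have h2 : w.take j = w.take i ++ (w.drop i).take (j - i) := by
    rw [← List.take_add]
    congr 1
    omega
  have h3 : cost c x w = cost c x (w.take i) +
      cost c (pos x (w.take i)) ((w.drop i).take (j - i)) +
      cost c (pos x (w.take j)) (w.drop j) := by
    conv_lhs => rw [← List.take_append_drop j w]
    rw [cost_append]
    conv_lhs => rw [h2]
    rw [cost_append, ← h2]
  have h5 : ((w.drop i).take (j - i)).length = j - i := by
    rw [List.length_take, List.length_drop]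
    omega
  have h4 : 0 < cost c (pos x (w.take i)) ((w.drop i).take (j - i)) := by
    refine cost_pos hp _ fun h0 => ?_
    rw [h0, List.length_nil] at h5
    omega
  rw [cost_append, heq, h3] at h1
  linarith

private theorem WA_sv_apply {d : ℕ} (s : St d) : sv s s.1 ≠ 0 := by
  rcases s with ⟨i, _ | _⟩ <;> simp [sv]

private theorem WA_sv_inj {d : ℕ} {s s' : St d} (h : sv s = sv s') : s = s' := by
  have h1 : s.1 = s'.1 := by
    by_contra hne
    have h2 := congrFun h s.1
    have h3 : sv s' s.1 = 0 := Pi.single_eq_of_ne hne _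
    rw [h3] at h2
    exact WA_sv_apply s h2
  rcases s with ⟨i, b⟩
  rcases s' with ⟨i', b'⟩
  have h1' : i = i' := h1
  subst h1'
  have h2 := congrFun h i
  simp only [sv, Pi.single_eq_same] at h2
  cases b <;> cases b' <;> simp_all

private theorem WA_near {d : ℕ} {x y : V d} (h : ∑ i, |x i - y i| = 1) :
    ∃ s : St d, y = x + sv s := by
  obtain ⟨i, hi⟩ : ∃ i, x i ≠ y i := by
    by_contra hcon
    push Not at hcon
    rw [Finset.sum_eq_zero (fun i _ => by rw [hcon i, sub_self, abs_zero])] at h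
    exact zero_ne_one h
  have h1 : 1 ≤ |x i - y i| := Int.one_le_abs (sub_ne_zero.2 hi)
  have h2 := Finset.add_sum_erase Finset.univ (fun j => |x j - y j|) (Finset.mem_univ i)
  have h3 : 0 ≤ ∑ j ∈ Finset.univ.erase i, |x j - y j| :=
    Finset.sum_nonneg fun j _ => abs_nonneg _
  have h2' : |x i - y i| + ∑ j ∈ Finset.univ.erase i, |x j - y j| = 1 := h2.trans h
  have h4 : ∑ j ∈ Finset.univ.erase i, |x j - y j| = 0 := by omega
  have h5 : |x i - y i| = 1 := by omega
  rw [Finset.sum_eq_zero_iff_of_nonneg (fun j _ => abs_nonneg _)] at h4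
  have h6 : ∀ j, j ≠ i → y j = x j := by
    intro j hj
    have h7 := h4 j (Finset.mem_erase.2 ⟨hj, Finset.mem_univ _⟩)
    have h8 := abs_eq_zero.1 h7
    omega
  rcases abs_eq (zero_le_one) |>.1 h5 with h7 | h7
  · refine ⟨(i, false), funext fun j => ?_⟩
    by_cases hj : j = i
    · subst hj
      simp only [sv, Pi.add_apply, Pi.single_eq_same]
      simp
      omega
    · rw [h6 j hj]
      simp [sv, hj]
  · refine ⟨(i, true), funext fun j => ?_⟩
    by_cases hj : j = i
    · subst hj
      simp only [sv, Pi.add_apply, Pi.single_eq_same]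
      simp
      omega
    · rw [h6 j hj]
      simp [sv, hj]

private theorem WA_walk {d : ℕ} {c : Edge d → ℝ} (t : Sym2 (Fin d → ℤ) → ℝ)
    (ht : ∀ e : Edge d, t e.1 = c e) (q : ℕ → V d) (u : ℕ → St d) (L : ℕ)
    (hq : ∀ k < L, q (k + 1) = q k + sv (u k)) :
    pos (q 0) (pre u L) = q L ∧
      cost c (q 0) (pre u L) = ∑ k ∈ Finset.range L, t s(q k, q (k + 1)) := by
  induction L with
  | zero => exact ⟨rfl, rfl⟩
  | succ L ih =>
    obtain ⟨h1, h2⟩ := ih fun k hk => hq k (by omega)
    have h3 : pre u (L + 1) = pre u L ++ [u L] := by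
      unfold pre
      rw [List.range_succ, List.map_append]
      rfl
    have h4 := hq L (by omega)
    constructor
    · rw [h3, pos_append, h1, h4]
      rfl
    · rw [h3, cost_append, h1, h2, Finset.sum_range_succ]
      congr 1
      show c (ed (q L) (u L)) + 0 = _
      rw [add_zero, ← ht, h4]
      rfl

theorem rays_to_paths' {d : ℕ} {c : Edge d → ℝ} (hb : ∀ e, 0 < c e)
    (t : Sym2 (Fin d → ℤ) → ℝ) (ht : ∀ e : Edge d, t e.1 = c e) (N : ℕ)
    (s : Fin N → ℕ → St d) (hs : Function.Injective s) (hr : ∀ i, Ray c (s i)) :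
    (N : ℕ∞) ≤ Set.encard {γ : ℕ → (Fin d → ℤ) |
        γ 0 = 0 ∧ Function.Injective γ ∧
        (∀ k, ∑ i, |γ k i - γ (k + 1) i| = 1) ∧
        ∀ m n : ℕ, m ≤ n →
          ∀ (L : ℕ) (q : ℕ → (Fin d → ℤ)), q 0 = γ m → q L = γ n →
            (∀ k < L, ∑ i, |q k i - q (k + 1) i| = 1) →
            ∑ k ∈ Finset.range (n - m), t s(γ (m + k), γ (m + k + 1)) ≤
              ∑ k ∈ Finset.range L, t s(q k, q (k + 1))} := by
  let γ : Fin N → ℕ → V d := fun i k => pos 0 (pre (s i) k)
  have hpre : ∀ (u : ℕ → St d) (L : ℕ), pre u (L + 1) = pre u L ++ [u L] := by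
    intro u L
    unfold pre
    rw [List.range_succ, List.map_append]
    rfl
  have hstep : ∀ i k, γ i (k + 1) = γ i k + sv (s i k) := by
    intro i k
    show pos 0 (pre (s i) (k + 1)) = _
    rw [hpre, pos_append]
    rfl
  have hlen : ∀ (u : ℕ → St d) (L : ℕ), (pre u L).length = L := by
    intro u L
    simp [pre]
  have htake : ∀ (u : ℕ → St d) (i j : ℕ), i ≤ j → (pre u j).take i = pre u i := by
    intro u i j hij
    unfold pre
    rw [← List.map_take, List.take_range, min_eq_left hij]
  have hinj : Function.Injective γ := by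
    intro i j hij
    apply hs
    funext k
    apply WA_sv_inj
    have h1 := hstep i k
    have h2 := hstep j k
    rw [← hij] at h2
    exact add_left_cancel (h1.symm.trans h2)
  have hmem : ∀ i, γ i ∈ {γ : ℕ → (Fin d → ℤ) |
        γ 0 = 0 ∧ Function.Injective γ ∧
        (∀ k, ∑ i, |γ k i - γ (k + 1) i| = 1) ∧
        ∀ m n : ℕ, m ≤ n →
          ∀ (L : ℕ) (q : ℕ → (Fin d → ℤ)), q 0 = γ m → q L = γ n →
            (∀ k < L, ∑ i, |q k i - q (k + 1) i| = 1) →
            ∑ k ∈ Finset.range (n - m), t s(γ (m + k), γ (m + k + 1)) ≤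
              ∑ k ∈ Finset.range L, t s(q k, q (k + 1))} := by
    intro i
    refine ⟨rfl, ?_, ?_, ?_⟩
    · have key : ∀ m n, m < n → γ i m ≠ γ i n := by
        intro m n hmn h
        have h1 := geo_pos_inj hb (hr i n) hmn (by rw [hlen])
        rw [htake _ _ _ hmn.le, htake _ _ _ (le_refl n)] at h1
        exact h1 h
      intro m n h
      rcases lt_trichotomy m n with h1 | h1 | h1
      · exact absurd h (key m n h1)
      · exact h1
      · exact absurd h.symm (key n m h1)
    · intro k
      rw [hstep]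
      exact sum_sv _ _
    · intro m n hmn L q hq0 hqL hq
      have hex : ∀ k, ∃ u : St d, k < L → q (k + 1) = q k + sv u := by
        intro k
        by_cases hk : k < L
        · obtain ⟨u, hu⟩ := WA_near (hq k hk)
          exact ⟨u, fun _ => hu⟩
        · exact ⟨s i 0, fun h => absurd h hk⟩
      choose u hu using hex
      obtain ⟨h1, h2⟩ := WA_walk t ht q u L hu
      obtain ⟨h3, h4⟩ := WA_walk t ht (fun k => γ i (m + k)) (fun k => s i (m + k)) (n - m)
        (fun k _ => hstep i (m + k))
      have h5 : pre (s i) n = pre (s i) m ++ pre (fun k => s i (m + k)) (n - m) := by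
        unfold pre
        conv_lhs => rw [show n = m + (n - m) by omega, List.range_add, List.map_append,
          List.map_map]
        rfl
      have h6 := hr i n (pre (s i) m ++ pre u L) (by
        rw [pos_append]
        show pos (γ i m) (pre u L) = γ i n
        rw [← hq0, h1, hqL])
      rw [h5, cost_append, cost_append] at h6
      have h7 : cost c (γ i m) (pre (fun k => s i (m + k)) (n - m)) ≤
          cost c (γ i m) (pre u L) := le_of_add_le_add_left h6
      rw [← hq0, h2] at h7
      have h8 : cost c (q 0) (pre (fun k => s i (m + k)) (n - m)) =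
          ∑ k ∈ Finset.range (n - m), t s(γ i (m + k), γ i (m + (k + 1))) := by
        rw [hq0]
        exact h4
      rw [h8] at h7
      exact h7
  calc (N : ℕ∞) ≤ (Set.range γ).encard := by
        have h := hinj.encard_range
        simpa using h
    _ ≤ _ := Set.encard_le_encard (by
        rintro _ ⟨i, rfl⟩
        exact hmem i)


/-- non-negative i.i.d. weights with an atomless law -/
structure GEnv {d : ℕ} {Ω : Type*} [MeasurableSpace Ω] (P : Measure Ω) (X : Edge d → Ω → ℝ)
    (ν : Measure ℝ) : Prop where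
  prob : IsProbabilityMeasure P
  meas : ∀ e, Measurable (X e)
  indep : iIndepFun X P
  law : ∀ e, P.map (X e) = ν
  na : ∀ x, ν {x} = 0
  nn : ∀ e ω, 0 ≤ X e ω

/-- geodesic rays for all environments give the frozen statement -/
theorem words (d : ℕ) (hR : ∀ (Ω : Type) (mΩ : MeasurableSpace Ω) (P : Measure Ω)
    (X : Edge d → Ω → ℝ) (ν : Measure ℝ), GEnv P X ν →
    ∀ᵐ ω ∂P, ∀ N : ℕ, ∃ s : Fin N → ℕ → St d, Function.Injective s ∧
      ∀ i, Ray (fun e => X e ω) (s i)) :
  ∀ (μ : Measure ℝ), IsProbabilityMeasure μ → NoAtoms μ → μ (Set.Iio 0) = 0 →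
  ∀ (Ω : Type) (mΩ : MeasurableSpace Ω) (P : Measure Ω), IsProbabilityMeasure P →
  ∀ (t : Sym2 (Fin d → ℤ) → Ω → ℝ),
    (∀ e, Measurable (t e)) →
    iIndepFun
      (fun e : {e : Sym2 (Fin d → ℤ) //
          ∃ x y : Fin d → ℤ, e = s(x, y) ∧ ∑ i, |x i - y i| = 1} => t e.1)
      P →
    (∀ x y : Fin d → ℤ, ∑ i, |x i - y i| = 1 →
      Measure.map (t s(x, y)) P = μ) →
    ∀ᵐ ω ∂P,
      Set.Infinite {γ : ℕ → (Fin d → ℤ) |
        γ 0 = 0 ∧ Function.Injective γ ∧
        (∀ k, ∑ i, |γ k i - γ (k + 1) i| = 1) ∧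
        ∀ m n : ℕ, m ≤ n →
          ∀ (L : ℕ) (q : ℕ → (Fin d → ℤ)), q 0 = γ m → q L = γ n →
            (∀ k < L, ∑ i, |q k i - q (k + 1) i| = 1) →
            ∑ k ∈ Finset.range (n - m), t s(γ (m + k), γ (m + k + 1)) ω ≤
              ∑ k ∈ Finset.range L, t s(q k, q (k + 1)) ω} := by
  intro μ hμ hna hsupp Ω mΩ P hP t htm hti htl
  have hna' : ∀ x, μ {x} = 0 := (show NullSingletonClass μ from hna).measure_singleton
  have hae : ∀ᵐ x ∂μ, 0 < x := by
    rw [ae_iff]
    have h1 : {x : ℝ | ¬ 0 < x} ⊆ Set.Iio 0 ∪ {0} := by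
      intro x hx
      rcases lt_or_eq_of_le (not_lt.1 hx) with h | h
      · exact Or.inl h
      · exact Or.inr h
    exact measure_mono_null h1 (measure_union_null hsupp (hna' 0))
  have hgm : Measurable fun x : ℝ => max x 0 := by fun_prop
  have hgae : ∀ᵐ x ∂μ, max x 0 = x := by
    filter_upwards [hae] with x hx
    exact max_eq_left hx.le
  have hgmap : μ.map (fun x : ℝ => max x 0) = μ := by
    rw [Measure.map_congr (g := id) hgae, Measure.map_id]
  have hlaw : ∀ e : Edge d, P.map (t e.1) = μ := by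
    rintro ⟨e, x, y, rfl, hxy⟩
    exact htl x y hxy
  have henv : GEnv P (fun (e : Edge d) ω => max (t e.1 ω) 0) μ := by
    refine ⟨hP, fun e => hgm.comp (htm e.1), ?_, ?_, hna', fun e ω => le_max_right _ _⟩
    · exact hti.comp (fun _ => fun x : ℝ => max x 0) (fun _ => hgm)
    · intro e
      have h1 : P.map (fun ω => max (t e.1 ω) 0) = (P.map (t e.1)).map (fun x : ℝ => max x 0) := by
        rw [Measure.map_map hgm (htm e.1)]
        rfl
      rw [h1, hlaw e, hgmap]
  have hedge : ∀ᵐ ω ∂P, ∀ e : Edge d, 0 < t e.1 ω := by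
    rw [ae_all_iff]
    intro e
    have h1 : ∀ᵐ x ∂(P.map (t e.1)), 0 < x := by
      rw [hlaw e]
      exact hae
    exact ae_of_ae_map (htm e.1).aemeasurable h1
  have hrays := hR Ω mΩ P _ μ henv
  filter_upwards [hrays, hedge] with ω hω hω2
  rw [← Set.encard_eq_top_iff, ENat.eq_top_iff_forall_ge]
  intro N
  obtain ⟨s, hs, hr⟩ := hω N
  have hpos : ∀ e : Edge d, 0 < max (t e.1 ω) 0 := fun e => lt_max_of_lt_left (hω2 e)
  exact rays_to_paths' hpos (fun e => t e ω) (fun e => (max_eq_left (hω2 e).le).symm) N s hs hr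

end Pool.Agent.Helper79.PB
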